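import Pool.Agent.Run7.h323.PS.Fark

/-!
# Bounds along the curves
-/

set_option autoImplicit false
set_option linter.unusedSectionVars false

namespace Run7.h323.PS

open Q47.TB Run7.h323.TQ Run7.h323.CC Filter Topology

variable {ι : Type*} [Fintype ι] {n : ℕ}

/-- The parameters of the points of the curve on the divisors. -/
noncomputable def rt (l : ι) : ℂ := (((Fintype.equivFin ι l : ℕ) + 1 : ℕ) : ℂ)

/-- The curves. -/
noncomputable def crv (x0 : ι → ℂ) (τ : ι → ℕ) (s : ℂ) (l : ι) : ℂ :=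
  x0 l * (1 - s / rt l) ^ τ l

noncomputable def mu (s : ℂ) : ℝ := max 1 ‖s‖

theorem one_le_mu (s : ℂ) : 1 ≤ mu s := le_max_left _ _

theorem mu_pos (s : ℂ) : 0 < mu s := lt_of_lt_of_le one_pos (one_le_mu s)

theorem norm_rt (l : ι) : ‖(rt l : ℂ)‖ = (Fintype.equivFin ι l : ℕ) + 1 := by
  rw [rt, Complex.norm_natCast]
  push_cast
  rfl

theorem rt_ne (l : ι) : (rt l : ℂ) ≠ 0 := by
  rw [← norm_pos_iff, norm_rt]
  positivity

theorem one_le_rt (l : ι) : 1 ≤ ‖(rt l : ℂ)‖ := by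
  rw [norm_rt]
  linarith [(Nat.cast_nonneg (Fintype.equivFin ι l : ℕ) : (0 : ℝ) ≤ _)]

theorem rt_le (l : ι) : ‖(rt l : ℂ)‖ ≤ Fintype.card ι := by
  rw [norm_rt]
  have := (Fintype.equivFin ι l).2
  exact_mod_cast this

theorem rt_dist {l l' : ι} (h : l ≠ l') : 1 ≤ ‖(rt l : ℂ) - rt l'‖ := by
  have h1 : ((Fintype.equivFin ι l : ℕ) : ℤ) - (Fintype.equivFin ι l' : ℕ) ≠ 0 := by
    intro h0
    apply h
    apply (Fintype.equivFin ι).injective
    apply Fin.ext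
    omega
  have h2 : (rt l : ℂ) - rt l' =
      (((Fintype.equivFin ι l : ℕ) : ℤ) - (Fintype.equivFin ι l' : ℕ) : ℤ) := by
    simp only [rt]
    push_cast
    ring
  rw [h2, Complex.norm_intCast]
  have h3 : (1 : ℤ) ≤ |((Fintype.equivFin ι l : ℕ) : ℤ) - (Fintype.equivFin ι l' : ℕ)| :=
    Int.one_le_abs h1
  exact_mod_cast h3

theorem upper (s : ℂ) (l : ι) : ‖1 - s / rt l‖ / mu s ≤ 2 := by
  rw [div_le_iff₀ (mu_pos s)]
  have h1 : ‖s / rt l‖ ≤ ‖s‖ := by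
    rw [norm_div]
    exact div_le_self (norm_nonneg _) (one_le_rt l)
  have h2 : ‖1 - s / rt l‖ ≤ 1 + ‖s‖ := (norm_sub_le _ _).trans (by rw [norm_one]; linarith)
  have h3 : ‖s‖ ≤ mu s := le_max_right _ _
  linarith [one_le_mu s]

theorem lower [Nonempty ι] (s : ℂ) : ∃ l0 : ι, ∀ l, l ≠ l0 →
    1 / (4 * (Fintype.card ι : ℝ) ^ 2) ≤ ‖1 - s / rt l‖ / mu s := by
  obtain ⟨l0, hl0⟩ := Finite.exists_min fun l : ι => ‖(rt l : ℂ) - s‖
  refine ⟨l0, fun l hl => ?_⟩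
  set R : ℝ := ((Fintype.card ι : ℕ) : ℝ)
  have hR : 1 ≤ R := (one_le_rt l).trans (rt_le l)
  have h1 : ‖1 - s / rt l‖ = ‖(rt l : ℂ) - s‖ / ‖(rt l : ℂ)‖ := by
    rw [← norm_div, sub_div, div_self (rt_ne l)]
  have h2 : 1 ≤ 2 * ‖(rt l : ℂ) - s‖ := by
    have h3 := rt_dist hl
    have h4 : ‖(rt l : ℂ) - rt l0‖ ≤ ‖(rt l : ℂ) - s‖ + ‖(rt l0 : ℂ) - s‖ := by
      have : (rt l : ℂ) - rt l0 = (rt l - s) - (rt l0 - s) := by ring
      rw [this]
      exact norm_sub_le _ _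
    linarith [hl0 l]
  rw [h1, div_div, div_le_div_iff₀ (by positivity)
    (mul_pos (norm_pos_iff.2 (rt_ne l)) (mu_pos s)), one_mul]
  rcases le_or_gt ‖s‖ (2 * R) with hs | hs
  · have h5 : mu s ≤ 2 * R := max_le (by linarith) hs
    calc ‖(rt l : ℂ)‖ * mu s ≤ R * (2 * R) :=
          mul_le_mul (rt_le l) h5 (mu_pos s).le (by linarith)
      _ ≤ ‖(rt l : ℂ) - s‖ * (4 * R ^ 2) := by nlinarith
  · have h5 : mu s = ‖s‖ := max_eq_right (by linarith)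
    have h6 : ‖s‖ ≤ 2 * ‖(rt l : ℂ) - s‖ := by
      have h7 : ‖s‖ - ‖(rt l : ℂ)‖ ≤ ‖(rt l : ℂ) - s‖ := by
        rw [norm_sub_rev]
        exact norm_sub_norm_le _ _
      linarith [rt_le l]
    rw [h5]
    calc ‖(rt l : ℂ)‖ * ‖s‖ ≤ R * (2 * ‖(rt l : ℂ) - s‖) :=
          mul_le_mul (rt_le l) h6 (norm_nonneg _) (by linarith)
      _ ≤ ‖(rt l : ℂ) - s‖ * (4 * R ^ 2) := by
          nlinarith [mul_nonneg (norm_nonneg ((rt l : ℂ) - s)) (sub_nonneg.2 hR),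
            mul_nonneg (mul_nonneg (norm_nonneg ((rt l : ℂ) - s)) (sub_nonneg.2 hR))
              (by linarith : (0 : ℝ) ≤ R)]

/-- The normalised coordinate on the curve. -/
noncomputable def bl (x0 : ι → ℂ) (τ : ι → ℕ) (s : ℂ) (l : ι) : ℝ :=
  -Real.log (‖crv x0 τ s l‖ / mu s ^ τ l)

theorem bl_eq {x0 : ι → ℂ} {τ : ι → ℕ} (hx0 : ∀ l, x0 l ≠ 0) {s : ℂ} {l : ι}
    (h : crv x0 τ s l ≠ 0) :
    bl x0 τ s l = -Real.log ‖x0 l‖ - τ l * Real.log (‖1 - s / rt l‖ / mu s) := by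
  have h1 : ‖crv x0 τ s l‖ / mu s ^ τ l = ‖x0 l‖ * (‖1 - s / rt l‖ / mu s) ^ τ l := by
    rw [crv, norm_mul, norm_pow, div_pow]
    ring
  rw [bl, h1, Real.log_mul (norm_ne_zero_iff.2 (hx0 l)), Real.log_pow]
  · ring
  · intro h0
    apply h
    rw [crv]
    rcases Nat.eq_zero_or_pos (τ l) with h2 | h2
    · rw [h2, pow_zero] at h0
      exact absurd h0 one_ne_zero
    · have h3 := pow_eq_zero_iff (by omega) |>.1 h0
      rcases div_eq_zero_iff.1 h3 with h4 | h4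
      · rw [norm_eq_zero.1 h4, zero_pow (by omega), mul_zero]
      · exact absurd h4 (mu_pos s).ne'

theorem crv_bound [Nonempty ι] {x0 : ι → ℂ} (τ : ι → ℕ) (hx0 : ∀ l, x0 l ≠ 0) :
    ∃ A : ℝ, 0 ≤ A ∧ ∀ s, (∀ l, crv x0 τ s l ≠ 0) →
      ∃ l0, (∀ l, l ≠ l0 → |bl x0 τ s l| ≤ A) ∧ -A ≤ bl x0 τ s l0 := by
  set ε : ℝ := 1 / (4 * (Fintype.card ι : ℝ) ^ 2) with hε
  have hcard : (0 : ℝ) < Fintype.card ι := by exact_mod_cast Fintype.card_pos
  have hε0 : 0 < ε := by positivity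
  set T : ℝ := |Real.log ε| + |Real.log 2| with hT
  have hT0 : 0 ≤ T := by positivity
  set G : ι → ℝ := fun l => |Real.log ‖x0 l‖| + τ l * T with hG
  have hG0 : ∀ l, 0 ≤ G l := fun l => by positivity
  have hle : ∀ l, G l ≤ ∑ l, G l := fun l =>
    Finset.single_le_sum (f := G) (fun l _ => hG0 l) (Finset.mem_univ l)
  refine ⟨∑ l, G l, Finset.sum_nonneg fun l _ => hG0 l, fun s hs => ?_⟩
  have hpos : ∀ l, 1 ≤ τ l → 0 < ‖1 - s / rt l‖ / mu s := by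
    intro l hτ
    refine div_pos (norm_pos_iff.2 fun h0 => hs l ?_) (mu_pos s)
    rw [crv, h0, zero_pow (by omega), mul_zero]
  have hup : ∀ l, -G l ≤ bl x0 τ s l := by
    intro l
    rw [bl_eq hx0 (hs l)]
    rcases Nat.eq_zero_or_pos (τ l) with h2 | h2
    · simp only [hG, h2]
      push_cast
      have := neg_abs_le (Real.log ‖x0 l‖)
      have := le_abs_self (Real.log ‖x0 l‖)
      linarith
    · have h3 : Real.log (‖1 - s / rt l‖ / mu s) ≤ T := by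
        refine (Real.log_le_log (hpos l h2) (upper s l)).trans ?_
        rw [hT]
        linarith [le_abs_self (Real.log 2), abs_nonneg (Real.log ε)]
      have h4 := le_abs_self (Real.log ‖x0 l‖)
      have h5 : (τ l : ℝ) * Real.log (‖1 - s / rt l‖ / mu s) ≤ τ l * T :=
        mul_le_mul_of_nonneg_left h3 (Nat.cast_nonneg _)
      simp only [hG]
      linarith
  obtain ⟨l0, hl0⟩ := lower (ι := ι) s
  refine ⟨l0, fun l hl => ?_, (neg_le_neg (hle l0)).trans (hup l0)⟩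
  rw [abs_le]
  refine ⟨(neg_le_neg (hle l)).trans (hup l), le_trans ?_ (hle l)⟩
  rw [bl_eq hx0 (hs l)]
  have h3 : -T ≤ Real.log (‖1 - s / rt l‖ / mu s) := by
    refine le_trans ?_ (Real.log_le_log hε0 (hl0 l hl))
    rw [hT]
    linarith [neg_abs_le (Real.log ε), abs_nonneg (Real.log 2)]
  have h4 := neg_abs_le (Real.log ‖x0 l‖)
  have h5 : (τ l : ℝ) * (-T) ≤ τ l * Real.log (‖1 - s / rt l‖ / mu s) :=
    mul_le_mul_of_nonneg_left h3 (Nat.cast_nonneg _)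
  simp only [hG]
  linarith

/-- The condition on the Cox coordinates of points of a compact subset. -/
def Bd (S : Set (Set ι)) (A : ℝ) (y : ι → ℂ) : Prop :=
  (∀ l, -A ≤ -Real.log ‖y l‖) ∧ ∃ σ, IsMax S σ ∧ ∀ j, j ∉ σ → |(-Real.log ‖y j‖)| ≤ A

theorem Bd.mono {S : Set (Set ι)} {A A' : ℝ} {y : ι → ℂ} (h : Bd S A y) (hA : A ≤ A') :
    Bd S A' y := by
  obtain ⟨h1, σ, hσ, h2⟩ := h
  exact ⟨fun l => (neg_le_neg hA).trans (h1 l), σ, hσ, fun j hj => (h2 j hj).trans hA⟩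

theorem ratio_bound [Nonempty ι] {u : ι → Fin n → ℤ} {S : Set (Set ι)} (hS : IsSmoothFan u S)
    {x0 : ι → ℂ} {τ : ι → ℕ} (hx0 : ∀ l, x0 l ≠ 0) (hτ : ∀ k, ∑ l, (τ l : ℤ) * u l k = 0)
    (A : ℝ) :
    ∃ C : ℝ, 0 ≤ C ∧ ∀ (s : ℂ) (y : ι → ℂ), (∀ l, crv x0 τ s l ≠ 0) → (∀ l, y l ≠ 0) →
      Bd S A y → (∀ k, ∏ l, y l ^ u l k = ∏ l, crv x0 τ s l ^ u l k) →
      ∀ l, |Real.log (‖crv x0 τ s l‖ / ‖y l‖) - τ l * Real.log (mu s)| ≤ C := by
  classical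
  obtain ⟨A1, hA1, hb⟩ := crv_bound τ hx0
  set A2 := max A A1 with hA2
  have hA20 : 0 ≤ A2 := hA1.trans (le_max_right _ _)
  have hC : ∀ (σ : Set ι) (l0 : ι), ∃ C : ℝ, 0 ≤ C ∧ (IsMax S σ → ∀ a b : ι → ℝ,
      (∀ l, l ≠ l0 → |b l| ≤ A2) → -A2 ≤ b l0 → (∀ l, -A2 ≤ a l) →
      (∀ j, j ∉ σ → |a j| ≤ A2) → (∀ k, ∑ l, a l * u l k = ∑ l, b l * u l k) →
      ∀ l, |a l - b l| ≤ C) := by
    intro σ l0
    by_cases h : IsMax S σ
    · obtain ⟨C, hC⟩ := prop_bound hS h l0 hA20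
      exact ⟨|C|, abs_nonneg _, fun _ a b h1 h2 h3 h4 h5 l =>
        (hC a b h1 h2 h3 h4 h5 l).trans (le_abs_self C)⟩
    · exact ⟨0, le_refl 0, fun h' => absurd h' h⟩
  choose C hC0 hC using hC
  have : Fintype (Set ι) := Fintype.ofFinite _
  refine ⟨∑ σ, ∑ l0, C σ l0, Finset.sum_nonneg fun σ _ => Finset.sum_nonneg fun l0 _ => hC0 σ l0,
    fun s y hs hy hBd hrel l => ?_⟩
  obtain ⟨l0, h1, h2⟩ := hb s hs
  obtain ⟨h3, σ, hσ, h4⟩ := hBd
  have hA : A ≤ A2 := le_max_left _ _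
  have hA' : A1 ≤ A2 := le_max_right _ _
  have h5 : ∀ k, ∑ l, (-Real.log ‖y l‖) * u l k = ∑ l, bl x0 τ s l * u l k := by
    intro k
    have h6 := congrArg (fun z : ℂ => Real.log ‖z‖) (hrel k)
    simp only [norm_prod, norm_zpow] at h6
    rw [Real.log_prod (fun l _ => zpow_ne_zero _ (norm_ne_zero_iff.2 (hy l))),
      Real.log_prod (fun l _ => zpow_ne_zero _ (norm_ne_zero_iff.2 (hs l)))] at h6
    simp only [Real.log_zpow] at h6
    have h7 : ∀ l, bl x0 τ s l = -Real.log ‖crv x0 τ s l‖ + τ l * Real.log (mu s) := by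
      intro l
      rw [bl, Real.log_div (norm_ne_zero_iff.2 (hs l)) (pow_pos (mu_pos s) _).ne', Real.log_pow]
      ring
    have h8 : ∑ l, (τ l : ℝ) * Real.log (mu s) * u l k = 0 := by
      have h9 : ∑ l, (τ l : ℝ) * u l k = 0 := by exact_mod_cast hτ k
      have h10 : ∑ l, (τ l : ℝ) * Real.log (mu s) * u l k =
          Real.log (mu s) * ∑ l, (τ l : ℝ) * u l k := by
        rw [Finset.mul_sum]
        exact Finset.sum_congr rfl fun l _ => by ring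
      rw [h10, h9, mul_zero]
    simp only [h7, add_mul, Finset.sum_add_distrib, h8, add_zero, neg_mul,
      Finset.sum_neg_distrib]
    rw [neg_inj]
    calc ∑ l, Real.log ‖y l‖ * u l k = ∑ l, (u l k : ℝ) * Real.log ‖y l‖ :=
          Finset.sum_congr rfl fun l _ => mul_comm _ _
      _ = ∑ l, (u l k : ℝ) * Real.log ‖crv x0 τ s l‖ := h6
      _ = _ := Finset.sum_congr rfl fun l _ => mul_comm _ _
  have h6 := hC σ l0 hσ (fun l => -Real.log ‖y l‖) (bl x0 τ s) (fun l hl => (h1 l hl).trans hA')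
    ((neg_le_neg hA').trans h2) (fun l => (neg_le_neg hA).trans (h3 l))
    (fun j hj => (h4 j hj).trans hA) h5 l
  have h7 : -Real.log ‖y l‖ - bl x0 τ s l =
      Real.log (‖crv x0 τ s l‖ / ‖y l‖) - τ l * Real.log (mu s) := by
    rw [bl, Real.log_div (norm_ne_zero_iff.2 (hs l)) (pow_pos (mu_pos s) _).ne', Real.log_pow,
      Real.log_div (norm_ne_zero_iff.2 (hs l)) (norm_ne_zero_iff.2 (hy l))]
    ring
  rw [← h7]
  refine h6.trans ?_
  calc C σ l0 ≤ ∑ l0, C σ l0 :=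
        Finset.single_le_sum (f := fun l0 => C σ l0) (fun l _ => hC0 σ l) (Finset.mem_univ l0)
    _ ≤ _ := Finset.single_le_sum (f := fun σ => ∑ l0, C σ l0)
        (fun σ _ => Finset.sum_nonneg fun l0 _ => hC0 σ l0) (Finset.mem_univ σ)

/-- Compact families of points. -/
theorem good_bound {E : Type*} [TopologicalSpace E] {Z : Set E} (hZ : IsCompact Z)
    {S : Set (Set ι)} {y : E → ι → ℂ} (hy : ∀ l, ContinuousOn (fun z => y z l) Z)
    (hmem : ∀ z ∈ Z, {l | y z l = 0} ∈ S) :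
    ∃ A : ℝ, ∀ z ∈ Z, (∀ l, y z l ≠ 0) → Bd S A (y z) := by
  refine hZ.induction_on (p := fun T => ∃ A : ℝ, ∀ z ∈ T, (∀ l, y z l ≠ 0) → Bd S A (y z))
    ⟨0, fun z hz => hz.elim⟩ ?_ ?_ ?_
  · rintro T T' hT ⟨A, hA⟩
    exact ⟨A, fun z hz => hA z (hT hz)⟩
  · rintro T T' ⟨A, hA⟩ ⟨A', hA'⟩
    refine ⟨max A A', fun z hz h => ?_⟩
    rcases hz with hz | hz
    · exact (hA z hz h).mono (le_max_left _ _)
    · exact (hA' z hz h).mono (le_max_right _ _)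
  · intro z1 hz1
    obtain ⟨σ, hσ, hsub⟩ := exists_max (hmem z1 hz1)
    set G : ι → ℝ := fun l => |Real.log (‖y z1 l‖ + 1)| + |Real.log (‖y z1 l‖ / 2)| with hG
    have hG0 : ∀ l, 0 ≤ G l := fun l => by positivity
    have hle : ∀ l, G l ≤ ∑ l, G l := fun l =>
      Finset.single_le_sum (f := G) (fun l _ => hG0 l) (Finset.mem_univ l)
    have h1 : ∀ᶠ z in 𝓝[Z] z1, ∀ l, ‖y z l‖ < ‖y z1 l‖ + 1 ∧
        (y z1 l ≠ 0 → ‖y z1 l‖ / 2 < ‖y z l‖) := by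
      rw [eventually_all]
      intro l
      have h2 : Tendsto (fun z => ‖y z l‖) (𝓝[Z] z1) (𝓝 ‖y z1 l‖) := ((hy l) z1 hz1).norm
      refine (h2.eventually (gt_mem_nhds (lt_add_one _))).and ?_
      by_cases h0 : y z1 l = 0
      · exact Eventually.of_forall fun z h => absurd h0 h
      · have h3 : ‖y z1 l‖ / 2 < ‖y z1 l‖ := half_lt_self (norm_pos_iff.2 h0)
        exact (h2.eventually (lt_mem_nhds h3)).mono fun z hz _ => hz
    refine ⟨_, h1, ∑ l, G l, fun z hz hne => ⟨fun l => ?_, σ, hσ, fun j hj => ?_⟩⟩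
    · have h2 := (hz l).1
      have h3 : Real.log ‖y z l‖ ≤ Real.log (‖y z1 l‖ + 1) :=
        Real.log_le_log (norm_pos_iff.2 (hne l)) h2.le
      have h4 := le_abs_self (Real.log (‖y z1 l‖ + 1))
      have h5 := hle l
      have h6 := abs_nonneg (Real.log (‖y z1 l‖ / 2))
      simp only [hG] at h5 ⊢
      linarith
    · have h0 : y z1 j ≠ 0 := fun h => hj (hsub h)
      have h2 := (hz j).1
      have h3 : Real.log ‖y z j‖ ≤ Real.log (‖y z1 j‖ + 1) :=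
        Real.log_le_log (norm_pos_iff.2 (hne j)) h2.le
      have h4 := le_abs_self (Real.log (‖y z1 j‖ + 1))
      have h7 : Real.log (‖y z1 j‖ / 2) ≤ Real.log ‖y z j‖ :=
        Real.log_le_log (half_pos (norm_pos_iff.2 h0)) ((hz j).2 h0).le
      have h8 := neg_abs_le (Real.log (‖y z1 j‖ / 2))
      have h5 := hle j
      have h6 := abs_nonneg (Real.log (‖y z1 j‖ / 2))
      have h9 := abs_nonneg (Real.log (‖y z1 j‖ + 1))
      rw [abs_neg, abs_le]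
      simp only [hG] at h5 ⊢
      constructor <;> linarith

end Run7.h323.PS
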