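import Pool.Agent.Run7.h323.TQ.Defs

/-!
# Pseudoeffective line bundles on complex manifolds which cover toric bundles: definitions
-/

set_option autoImplicit false

namespace Run7.h323.PS

open Pool.Agent.W594.SYZ2 Q47.TB Q47.FJ MvPolynomial Run7.h323.TQ

section

variable {E I K : Type*} [NormedAddCommGroup E] [NormedSpace ℂ E]

/-- The function `w ≥ 0` on the open set `U` is the exponential of a plurisubharmonic function (which
has the value `-∞` at the zeros of `w`): it is upper semicontinuous, and for each holomorphic map `g`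
of the closed unit disc to `U` and each holomorphic function `q` without zeros on the closed unit
disc, `w(g(s)) / |q(s)|` satisfies the maximum principle. (The functions `log |q|` are the harmonic
functions on the closed disc.) -/
structure IsLogPsh (U : Set E) (w : E → ℝ) : Prop where
  nonneg : ∀ z ∈ U, 0 ≤ w z
  usc : UpperSemicontinuousOn w U
  disc : ∀ (g : ℂ → E) (q : ℂ → ℂ),
    (∀ s, ‖s‖ ≤ 1 → AnalyticAt ℂ g s ∧ g s ∈ U ∧ AnalyticAt ℂ q s ∧ q s ≠ 0) →
      (∀ s, ‖s‖ = 1 → w (g s) ≤ ‖q s‖) → ∀ s, ‖s‖ ≤ 1 → w (g s) ≤ ‖q s‖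

/-- The line bundle `A` on `M` is pseudoeffective: it has a singular hermitian metric whose curvature
current is positive. For a local section `f` of `A` over the chart `i` the norm is `|f| / w i`, where
`log (w i)` is plurisubharmonic; `w` is not zero everywhere. -/
def IsPsef {M : Atlas E I K} (A : LB M) : Prop :=
  ∃ w : I → E → ℝ, (∀ i, IsLogPsh (M.U i) (w i)) ∧
    (∀ k, ∀ z ∈ M.D k, w (M.t k) (M.φ k z) = ‖ev A k z‖ * w (M.s k) z) ∧
    ∃ i, ∃ z ∈ M.U i, w i z ≠ 0

/-- The line bundle `A` on `M` has a global section which is not zero. -/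
def HasSec {M : Atlas E I K} (A : LB M) : Prop :=
  ∃ f, IsSec A f ∧ ∃ i, ∃ z ∈ M.U i, f i z ≠ 0

/-- `M` is compact: it is the union of finitely many compact subsets of charts. -/
def IsCpt (M : Atlas E I K) : Prop :=
  ∃ (s : Finset I) (C : I → Set E), (∀ i ∈ s, IsCompact (C i) ∧ C i ⊆ M.U i) ∧
    ∀ i', ∀ z' ∈ M.U i', ∃ i ∈ s, ∃ z ∈ C i, M.Same i' z' i z

end

variable {E I K : Type*} [NormedAddCommGroup E] [NormedSpace ℂ E] {M : Atlas E I K}
  {V : Type*} [NormedAddCommGroup V] [NormedSpace ℂ V] {Γ : Subgroup (V ≃ᵃ[ℂ] V)}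
  {ι : Type*} [Fintype ι] {n : ℕ} {u : ι → Fin n → ℤ} {S : Set (Set ι)} {c : ι → LineBundle Γ}

/-- The point of `Y` with the coordinates `(v, x)` lies neither on the divisor `F = 0` nor on the
divisors `D_l`. -/
def IsOff (F : V → MvPolynomial ι ℂ) (v : V) (x : ι → ℂ) : Prop :=
  eval x (F v) ≠ 0 ∧ ∀ l, x l ≠ 0

/-- The map `f : M → Y` between spaces of the same dimension is generically finite, and it is a local
isomorphism at all points of `M` which are not mapped to the divisor `F = 0` of `Y` or to the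
divisors `D_l`; these points are dense. (The condition `ZeroY` on a tangent vector `e` of `M` says
that its image is zero as a tangent vector of `Y`.) -/
structure IsCover (f : LiftedMap M u S c) (F : V → MvPolynomial ι ℂ) : Prop where
  dim : Module.finrank ℂ E = Module.finrank ℂ V + n
  ana_v : ∀ i, AnalyticOnNhd ℂ (f.v i) (M.U i)
  ana_x : ∀ i, AnalyticOnNhd ℂ (f.x i) (M.U i)
  div : ∃ (d : ι → ℤ) (L : LineBundle Γ), IsSection u c d L.e F
  dense : ∀ i, ∀ U ⊆ M.U i, IsOpen U → U.Nonempty → ∃ z ∈ U, IsOff F (f.v i z) (f.x i z)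
  imm : ∀ i, ∀ z ∈ M.U i, IsOff F (f.v i z) (f.x i z) → ∀ e : E,
    ZeroY u (f.x i z) (fderiv ℂ (f.v i) z e) (fderiv ℂ (f.x i) z e) → e = 0

end Run7.h323.PS
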