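import Pool.Agent.Run7.h323.CC.Fan

/-!
# Movable curves on toric varieties, and a bound in the fan
-/

set_option autoImplicit false
set_option linter.unusedSectionVars false

namespace Run7.h323.PS

open Q47.TB Run7.h323.TQ Run7.h323.CC Filter Topology

variable {ι : Type*} [Fintype ι] {n : ℕ}

theorem sum_option {r : ℕ} [DecidableEq ι] (g : Fin r → Option ι) (b : Fin r → ℕ)
    (G : Option ι → ℤ) :
    ∑ j, (b j : ℤ) * G (g j) = ((∑ j, if g j = none then b j else 0 : ℕ) : ℤ) * G none +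
      ∑ i, ((∑ j, if g j = some i then b j else 0 : ℕ) : ℤ) * G (some i) := by
  have h1 : ∀ j, (b j : ℤ) * G (g j) = (if g j = none then (b j : ℤ) else 0) * G none +
      ∑ i, (if g j = some i then (b j : ℤ) else 0) * G (some i) := by
    intro j
    rcases g j with _ | i
    · simp
    · simp only [reduceCtorEq, if_false, zero_mul, zero_add, Option.some.injEq]
      rw [Finset.sum_eq_single i]
      · simp
      · intro i' _ hi'
        rw [if_neg (Ne.symm hi'), zero_mul]
      · intro h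
        exact absurd (Finset.mem_univ i) h
  rw [Finset.sum_congr rfl fun j _ => h1 j, Finset.sum_add_distrib, Finset.sum_comm]
  push_cast
  simp only [Finset.sum_mul]

theorem farkas_step {u : ι → Fin n → ℤ} (D : ι → ℤ)
    (h : ∀ τ : ι → ℕ, (∀ k, ∑ i, (τ i : ℤ) * u i k = 0) → 0 ≤ ∑ i, (τ i : ℤ) * D i)
    (N : ℕ) (hN : 1 ≤ N) :
    ∃ q : Fin n → ℝ, ∀ i, -(D i : ℝ) - 1 / N ≤ ∑ k, q k * u i k := by
  classical
  let Q : Option ι → Fin (n + 1) → ℤ := fun o =>
    o.elim (Fin.cons 1 0) fun i => Fin.cons (N * D i + 1) (u i)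
  by_cases hull : (0 : Fin (n + 1) → ℝ) ∈ convexHull ℝ (Set.range fun j => fun k => (Q j k : ℝ))
  · obtain ⟨r, g, b, hb1, hb⟩ := int_of_hull Q hull
    exfalso
    have h1 := sum_option g b fun o => Q o 0
    rw [hb 0] at h1
    have h2 : ∀ k : Fin n, ∑ i, ((∑ j, if g j = some i then b j else 0 : ℕ) : ℤ) * u i k = 0 := by
      intro k
      have h3 := sum_option g b fun o => Q o k.succ
      rw [hb k.succ] at h3
      have h4 : Q none k.succ = 0 := by simp [Q]
      have h5 : ∀ i, Q (some i) k.succ = u i k := fun i => by simp [Q]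
      rw [h4, mul_zero, zero_add] at h3
      simp only [h5] at h3
      exact h3.symm
    have h3 := h _ h2
    have h4 : Q none 0 = 1 := by simp [Q]
    have h5 : ∀ i, Q (some i) 0 = N * D i + 1 := fun i => by simp [Q]
    rw [h4, mul_one] at h1
    simp only [h5, mul_add, mul_one, Finset.sum_add_distrib] at h1
    have h6 := sum_option g b fun _ => 1
    simp only [mul_one] at h6
    have h7 : (1 : ℤ) ≤ ∑ j, (b j : ℤ) := by exact_mod_cast hb1
    have h8 : ∑ i, ((∑ j, if g j = some i then b j else 0 : ℕ) : ℤ) * (N * D i) =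
        N * ∑ i, ((∑ j, if g j = some i then b j else 0 : ℕ) : ℤ) * D i := by
      rw [Finset.mul_sum]
      exact Finset.sum_congr rfl fun i _ => by ring
    have h9 : 0 ≤ (N : ℤ) * ∑ i, ((∑ j, if g j = some i then b j else 0 : ℕ) : ℤ) * D i :=
      mul_nonneg (Int.natCast_nonneg _) h3
    rw [h8] at h1
    linarith
  · obtain ⟨w, hw⟩ := sep_of_not_hull Q hull
    have hw0 : 0 < w 0 := by
      have := hw none
      simpa [Q, Fin.sum_univ_succ] using this
    have hN' : (0 : ℝ) < N := by exact_mod_cast hN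
    have hw0' : (0 : ℝ) < w 0 := by exact_mod_cast hw0
    refine ⟨fun k => (w k.succ : ℝ) / (N * w 0), fun i => ?_⟩
    have h1 : 0 < (N * D i + 1) * w 0 + ∑ k : Fin n, u i k * w k.succ := by
      have := hw (some i)
      simpa [Q, Fin.sum_univ_succ] using this
    have h2 : (0 : ℝ) < (N * D i + 1) * w 0 + ∑ k : Fin n, (u i k : ℝ) * w k.succ := by
      exact_mod_cast h1
    have h3 : ∑ k : Fin n, (w k.succ : ℝ) / (N * w 0) * u i k =
        (∑ k : Fin n, (u i k : ℝ) * w k.succ) / (N * w 0) := by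
      rw [Finset.sum_div]
      exact Finset.sum_congr rfl fun k _ => by ring
    rw [h3, le_div_iff₀ (mul_pos hN' hw0')]
    have h4 : (-(D i : ℝ) - 1 / N) * (N * w 0) = -((N * D i + 1) * w 0) := by
      field_simp
      ring
    rw [h4]
    linarith

/-- A divisor class with nonnegative degrees on the movable curves is effective over the
rationals. -/
theorem farkas {u : ι → Fin n → ℤ} {S : Set (Set ι)} (hS : IsSmoothFan u S) (D : ι → ℤ)
    (h : ∀ τ : ι → ℕ, (∀ k, ∑ i, (τ i : ℤ) * u i k = 0) → 0 ≤ ∑ i, (τ i : ℤ) * D i) :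
    ∃ K : ℕ, 1 ≤ K ∧ ∃ β : ι → ℕ, LinEquiv u (fun i => (β i : ℤ)) (fun i => K * D i) := by
  classical
  choose q hq using fun N : ℕ => farkas_step D h (N + 1) (by omega)
  have hb : ∀ w : Fin n → ℤ, ∃ A : ℝ, ∀ N, A ≤ ∑ k, q N k * w k := by
    intro w
    obtain ⟨a, ⟨-, ha⟩, -⟩ := hS.rep w
    refine ⟨∑ i, (a i : ℝ) * (-(D i : ℝ) - 1), fun N => ?_⟩
    have h1 : ∑ k, q N k * w k = ∑ i, (a i : ℝ) * ∑ k, q N k * u i k := by
      simp only [← ha, Finset.mul_sum]
      push_cast
      simp only [Finset.mul_sum]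
      rw [Finset.sum_comm]
      exact Finset.sum_congr rfl fun i _ => Finset.sum_congr rfl fun k _ => by ring
    rw [h1]
    refine Finset.sum_le_sum fun i _ => mul_le_mul_of_nonneg_left ?_ (Nat.cast_nonneg _)
    refine le_trans ?_ (hq N i)
    have h2 : (1 : ℝ) / ((N + 1 : ℕ) : ℝ) ≤ 1 := by
      rw [div_le_one (by positivity)]
      push_cast
      linarith [(Nat.cast_nonneg N : (0 : ℝ) ≤ N)]
    linarith
  choose A hA using hb
  have hmem : ∀ N, q N ∈ Set.Icc (fun k => A (Pi.single k 1)) (fun k => -A (-Pi.single k 1)) := by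
    intro N
    refine ⟨fun k => ?_, fun k => ?_⟩
    · have := hA (Pi.single k 1) N
      simpa [Pi.single_apply] using this
    · have := hA (-Pi.single k 1) N
      simp [Pi.single_apply] at this
      simp only
      linarith
  obtain ⟨q0, -, φ, hφ, hlim⟩ := isCompact_Icc.tendsto_subseq hmem
  have h0 : ∀ i, 0 ≤ (D i : ℝ) + ∑ k, q0 k * u i k := by
    intro i
    have h1 : Tendsto (fun N => (D i : ℝ) + ∑ k, q (φ N) k * u i k + 1 / ((φ N : ℝ) + 1)) atTop
        (𝓝 ((D i : ℝ) + ∑ k, q0 k * u i k + 0)) := by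
      refine Tendsto.add (tendsto_const_nhds.add (tendsto_finsetSum _ fun k _ => ?_)) ?_
      · exact ((tendsto_pi_nhds.1 hlim) k).mul tendsto_const_nhds
      · exact (tendsto_one_div_add_atTop_nhds_zero_nat (𝕜 := ℝ)).comp hφ.tendsto_atTop
    rw [add_zero] at h1
    refine ge_of_tendsto' h1 fun N => ?_
    have := hq (φ N) i
    push_cast at this
    linarith
  let rows : ι ⊕ Unit → Fin (n + 1) → ℤ :=
    Sum.elim (fun i => Fin.cons (D i) (u i)) fun _ => Fin.cons 1 0
  let x : Fin (n + 1) → ℝ := Fin.cons 1 q0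
  have hrows : ∀ j, 0 ≤ ∑ k, (rows j k : ℝ) * x k := by
    rintro (i | -)
    · have h1 : ∑ k, (rows (Sum.inl i) k : ℝ) * x k = (D i : ℝ) + ∑ k, q0 k * u i k := by
        simp [rows, x, Fin.sum_univ_succ, mul_comm]
      rw [h1]
      exact h0 i
    · simp [rows, x, Fin.sum_univ_succ]
  obtain ⟨P, hP, cc, b, hc, hb, hbr⟩ := Q47.MM.cone_decomp rows x hrows
  have hne : Nonempty P := by
    by_contra hcon
    rw [not_nonempty_iff] at hcon
    have h1 := hb 0
    rw [Finset.univ_eq_empty, Finset.sum_empty] at h1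
    have h2 : x 0 = 1 := by simp [x]
    rw [h2] at h1
    norm_num at h1
  obtain ⟨p⟩ := hne
  have h1 : 0 < b p 0 := by
    have := (hbr p (Sum.inr ())).2 (by simp [rows, x, Fin.sum_univ_succ])
    simpa [rows, Fin.sum_univ_succ] using this
  have h2 : ∀ i, 0 ≤ D i * b p 0 + ∑ k : Fin n, u i k * b p k.succ := by
    intro i
    have := (hbr p (Sum.inl i)).1
    simpa [rows, Fin.sum_univ_succ] using this
  refine ⟨(b p 0).toNat, by omega,
    fun i => (D i * b p 0 + ∑ k : Fin n, u i k * b p k.succ).toNat, fun k => b p k.succ,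
    fun i => ?_⟩
  change (((D i * b p 0 + ∑ k : Fin n, u i k * b p k.succ).toNat : ℕ) : ℤ) =
    ((b p 0).toNat : ℤ) * D i + ∑ k : Fin n, b p k.succ * u i k
  rw [Int.toNat_of_nonneg (h2 i), Int.toNat_of_nonneg h1.le, mul_comm (D i)]
  congr 1
  exact Finset.sum_congr rfl fun k _ => mul_comm _ _

/-- The bound behind the properness of the action on the Cox coordinates. -/
theorem prop_bound {u : ι → Fin n → ℤ} {S : Set (Set ι)} (hS : IsSmoothFan u S) {σ : Set ι}
    (hσ : IsMax S σ) (l0 : ι) {A : ℝ} (hA : 0 ≤ A) :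
    ∃ C : ℝ, ∀ a b : ι → ℝ, (∀ l, l ≠ l0 → |b l| ≤ A) → -A ≤ b l0 → (∀ l, -A ≤ a l) →
      (∀ j, j ∉ σ → |a j| ≤ A) → (∀ k, ∑ l, a l * u l k = ∑ l, b l * u l k) →
      ∀ l, |a l - b l| ≤ C := by
  classical
  obtain ⟨m, hm⟩ := exists_dual hS hσ
  let Mt : ι → ι → ℝ := fun j l => ((∑ k, u l k * m k j : ℤ) : ℝ)
  let B : ℝ := ∑ j, ∑ l, |Mt j l|
  have hB : ∀ j, ∑ l, |Mt j l| ≤ B := fun j =>
    Finset.single_le_sum (f := fun j => ∑ l, |Mt j l|)
      (fun j _ => Finset.sum_nonneg fun l _ => abs_nonneg _) (Finset.mem_univ j)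
  have hB0 : 0 ≤ B := Finset.sum_nonneg fun j _ => Finset.sum_nonneg fun l _ => abs_nonneg _
  have hMt1 : ∀ j, ∀ l ∈ σ, Mt j l = if j = l then 1 else 0 := by
    intro j l hl
    simp only [Mt]
    rw [hm.dual l hl j]
    split_ifs <;> simp
  refine ⟨2 * A * (1 + B) ^ 2, fun a b hb1 hb2 ha1 ha2 hab => ?_⟩
  set δ : ι → ℝ := fun l => a l - b l with hδ
  have hrel : ∀ j, ∑ l, δ l * Mt j l = 0 := by
    intro j
    calc ∑ l, δ l * Mt j l = ∑ k, (m k j : ℝ) * (∑ l, a l * u l k - ∑ l, b l * u l k) := by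
          simp only [Mt, δ]
          push_cast
          simp only [mul_sub, Finset.mul_sum, sub_mul, Finset.sum_sub_distrib]
          rw [Finset.sum_comm, Finset.sum_comm (f := fun l k => b l * (↑(u l k) * ↑(m k j)))]
          congr 1 <;>
          exact Finset.sum_congr rfl fun k _ => Finset.sum_congr rfl fun l _ => by ring
      _ = 0 := by simp [hab]
  have hsub : ∀ (T : ℝ), (∀ l, l ∉ σ → |δ l| ≤ T) → 0 ≤ T → ∀ j ∈ σ, |δ j| ≤ T * B := by
    intro T hT hT0 j hj
    have h1 := hrel j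
    rw [← Finset.sum_filter_add_sum_filter_not Finset.univ (fun l => l ∈ σ)] at h1
    have h2 : ∑ l with l ∈ σ, δ l * Mt j l = δ j := by
      rw [Finset.sum_eq_single j]
      · rw [hMt1 j j hj, if_pos rfl, mul_one]
      · intro l hl hne
        rw [hMt1 j l (Finset.mem_filter.1 hl).2, if_neg (Ne.symm hne), mul_zero]
      · intro h
        exact absurd (Finset.mem_filter.2 ⟨Finset.mem_univ j, hj⟩) h
    rw [h2] at h1
    have h3 : δ j = -∑ l with l ∉ σ, δ l * Mt j l := by linarith
    rw [h3, abs_neg]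
    calc |∑ l with l ∉ σ, δ l * Mt j l| ≤ ∑ l with l ∉ σ, |δ l * Mt j l| :=
          Finset.abs_sum_le_sum_abs _ _
      _ ≤ ∑ l with l ∉ σ, T * |Mt j l| := Finset.sum_le_sum fun l hl => by
          rw [abs_mul]
          exact mul_le_mul_of_nonneg_right (hT l (Finset.mem_filter.1 hl).2) (abs_nonneg _)
      _ ≤ ∑ l, T * |Mt j l| := Finset.sum_le_sum_of_subset_of_nonneg (Finset.filter_subset _ _)
          fun l _ _ => mul_nonneg hT0 (abs_nonneg _)
      _ ≤ T * B := by
          rw [← Finset.mul_sum]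
          exact mul_le_mul_of_nonneg_left (hB j) hT0
  have hfar : ∀ l, l ∉ σ → l ≠ l0 → |δ l| ≤ 2 * A := by
    intro l hl hl0
    have h1 := abs_le.1 (ha2 l hl)
    have h2 := abs_le.1 (hb1 l hl0)
    rw [abs_le]
    simp only [δ]
    constructor <;> linarith
  by_cases hl0 : l0 ∈ σ
  · have h1 := hsub (2 * A) (fun l hl => hfar l hl fun h => hl (h ▸ hl0)) (by linarith)
    intro l
    by_cases hl : l ∈ σ
    · refine (h1 l hl).trans ?_
      nlinarith [mul_nonneg hA hB0, mul_nonneg hA (mul_nonneg hB0 hB0)]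
    · refine (hfar l hl fun h => hl (h ▸ hl0)).trans ?_
      nlinarith [mul_nonneg hA hB0, mul_nonneg hA (mul_nonneg hB0 hB0)]
  · obtain ⟨j0, hj0, hneg⟩ : ∃ j ∈ σ, (∑ k, u l0 k * m k j : ℤ) < 0 := by
      by_contra hcon
      push Not at hcon
      let cf : ι → ℕ := fun j => (∑ k, u l0 k * m k j : ℤ).toNat
      have h1 : ∀ j, (cf j : ℤ) = ∑ k, u l0 k * m k j := by
        intro j
        by_cases hj : j ∈ σ
        · exact Int.toNat_of_nonneg (hcon j hj)
        · have h2 : ∑ k, u l0 k * m k j = 0 :=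
            Finset.sum_eq_zero fun k _ => by rw [hm.1 k j hj, mul_zero]
          simp only [cf, h2]
          simp
      have h2 : {i | cf i ≠ 0} ∈ S := by
        refine hS.face σ hσ.1 _ fun j hj => ?_
        by_contra h3
        refine hj ?_
        have h4 : ∑ k, u l0 k * m k j = 0 :=
          Finset.sum_eq_zero fun k _ => by rw [hm.1 k j h3, mul_zero]
        simp only [cf, h4]
        simp
      have h3 : ∀ k, ∑ i, (cf i : ℤ) * u i k = u l0 k := by
        intro k
        simp only [h1, Finset.sum_mul]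
        rw [Finset.sum_comm]
        have h4 : ∀ k', ∑ i, u l0 k' * m k' i * u i k = u l0 k' * if k = k' then 1 else 0 := by
          intro k'
          rw [← hm.2 k' k, Finset.mul_sum]
          exact Finset.sum_congr rfl fun i _ => by ring
        simp [h4]
      have h5 : ({i | (Pi.single l0 1 : ι → ℕ) i ≠ 0} : Set ι) = {l0} := by
        ext i
        simp [Pi.single_apply]
      have h6 := (hS.rep (u l0)).unique ⟨h2, h3⟩ (y₂ := Pi.single l0 1)
        ⟨by rw [h5]; exact hS.ray l0, fun k => by simp [Pi.single_apply]⟩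
      have h7 : cf l0 = 1 := by rw [h6]; simp
      have h8 : cf l0 = 0 := by
        have h4 : ∑ k, u l0 k * m k l0 = 0 :=
          Finset.sum_eq_zero fun k _ => by rw [hm.1 k l0 hl0, mul_zero]
        simp only [cf, h4]
        simp
      omega
    have hM : Mt j0 l0 ≤ -1 := by
      simp only [Mt]
      have : (∑ k, u l0 k * m k j0 : ℤ) ≤ -1 := by omega
      exact_mod_cast this
    have h1 := hrel j0
    rw [← Finset.sum_filter_add_sum_filter_not Finset.univ (fun l => l ∈ σ)] at h1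
    have h2 : ∑ l with l ∈ σ, δ l * Mt j0 l = δ j0 := by
      rw [Finset.sum_eq_single j0]
      · rw [hMt1 j0 j0 hj0, if_pos rfl, mul_one]
      · intro l hl hne
        rw [hMt1 j0 l (Finset.mem_filter.1 hl).2, if_neg (Ne.symm hne), mul_zero]
      · intro h
        exact absurd (Finset.mem_filter.2 ⟨Finset.mem_univ j0, hj0⟩) h
    rw [h2] at h1
    have h3 : ∑ l with l ∉ σ, δ l * Mt j0 l =
        δ l0 * Mt j0 l0 + ∑ l ∈ (Finset.univ.filter fun l => l ∉ σ).erase l0, δ l * Mt j0 l :=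
      (Finset.add_sum_erase _ (fun l => δ l * Mt j0 l)
        (Finset.mem_filter.2 ⟨Finset.mem_univ l0, hl0⟩)).symm
    rw [h3] at h1
    have h4 : |∑ l ∈ (Finset.univ.filter fun l => l ∉ σ).erase l0, δ l * Mt j0 l| ≤ 2 * A * B := by
      calc |∑ l ∈ (Finset.univ.filter fun l => l ∉ σ).erase l0, δ l * Mt j0 l|
          ≤ ∑ l ∈ (Finset.univ.filter fun l => l ∉ σ).erase l0, |δ l * Mt j0 l| :=
            Finset.abs_sum_le_sum_abs _ _
        _ ≤ ∑ l ∈ (Finset.univ.filter fun l => l ∉ σ).erase l0, 2 * A * |Mt j0 l| := by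
            refine Finset.sum_le_sum fun l hl => ?_
            rw [abs_mul]
            rw [Finset.mem_erase, Finset.mem_filter] at hl
            exact mul_le_mul_of_nonneg_right (hfar l hl.2.2 hl.1) (abs_nonneg _)
        _ ≤ ∑ l, 2 * A * |Mt j0 l| :=
            Finset.sum_le_sum_of_subset_of_nonneg (Finset.subset_univ _)
              fun l _ _ => mul_nonneg (by linarith) (abs_nonneg _)
        _ ≤ 2 * A * B := by
            rw [← Finset.mul_sum]
            exact mul_le_mul_of_nonneg_left (hB j0) (by linarith)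
    have hne : j0 ≠ l0 := fun h => hl0 (h ▸ hj0)
    have h5 : -(2 * A) ≤ δ j0 := by
      have h6 := ha1 j0
      have h7 := (abs_le.1 (hb1 j0 hne)).2
      simp only [δ]
      linarith
    have h6 := abs_le.1 h4
    have h7 : δ l0 ≤ 2 * A := by
      have h8 := (abs_le.1 (ha2 l0 hl0)).2
      simp only [δ]
      linarith
    have h8 : -(2 * A * (1 + B)) ≤ δ l0 := by
      have h9 : -(2 * A * (1 + B)) ≤ -(δ l0 * Mt j0 l0) := by
        have : δ l0 * Mt j0 l0 = -δ j0 - ∑ l ∈ (Finset.univ.filter fun l => l ∉ σ).erase l0,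
          δ l * Mt j0 l := by linarith
        rw [this]
        linarith [h6.1, h6.2]
      by_contra hcon
      push Not at hcon
      have h10 : δ l0 < 0 := lt_of_lt_of_le hcon (by nlinarith [mul_nonneg hA hB0])
      nlinarith
    have h9 : |δ l0| ≤ 2 * A * (1 + B) := by
      rw [abs_le]
      exact ⟨h8, h7.trans (by nlinarith [mul_nonneg hA hB0])⟩
    have h10 : ∀ l, l ∉ σ → |δ l| ≤ 2 * A * (1 + B) := by
      intro l hl
      by_cases h : l = l0
      · rw [h]
        exact h9
      · exact (hfar l hl h).trans (by nlinarith [mul_nonneg hA hB0])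
    have h11 := hsub _ h10 (by nlinarith [mul_nonneg hA hB0])
    intro l
    by_cases hl : l ∈ σ
    · refine (h11 l hl).trans ?_
      nlinarith [mul_nonneg hA hB0, mul_nonneg hA (mul_nonneg hB0 hB0)]
    · refine (h10 l hl).trans ?_
      nlinarith [mul_nonneg hA hB0, mul_nonneg hA (mul_nonneg hB0 hB0)]

end Run7.h323.PS
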