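import Pool.Agent.Run7.h323.PS.Max

/-!
# The local step of the maximum principle, and the start
-/

set_option autoImplicit false
set_option linter.unusedSectionVars false

namespace Run7.h323.PS

open Pool.Agent.W594.SYZ2 MvPolynomial Q47.TB Q47.FJ Run7.h323.TQ Filter Topology

variable {ι : Type*} [Fintype ι]
  {E I K : Type*} [NormedAddCommGroup E] [NormedSpace ℂ E] [FiniteDimensional ℂ E]
  {M : Atlas E I K} {V : Type*} [NormedAddCommGroup V] [NormedSpace ℂ V] [FiniteDimensional ℂ V]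
  {Γ : Subgroup (V ≃ᵃ[ℂ] V)} {n : ℕ} {u : ι → Fin n → ℤ} {S : Set (Set ι)} {c : ι → LineBundle Γ}
  {f : LiftedMap M u S c} {F : V → MvPolynomial ι ℂ} {L : LineBundle Γ}
    {D : ι → ℤ} {a b N : ℕ} {w : I → E → ℝ} {h : I → E → ℂ} {v0 : V} {x0 : ι → ℂ} {τ : ι → ℕ}
    {A : LB M} {T : Finset I} {C : I → Set E}

theorem Ps_move (hs : Sit f F A L D a b w h T C) {k : K} {z : E} (hz : z ∈ M.D k) {γ : Γ}
    {X : ι → ℂ} (ht : Tup f v0 X (M.s k) γ z) (s : ℂ) :
    Ps f F L D a b N w h v0 x0 τ (M.t k) (γ * (f.γ k z)⁻¹) (s, M.φ k z) =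
      Ps f F L D a b N w h v0 x0 τ (M.s k) γ (s, z) := by
  simp only [Ps]
  rw [inv_move hs.hh0 hs.wt hs.he hz ht]

theorem crv_analytic (l : ι) (s : ℂ) : AnalyticAt ℂ (fun s => crv x0 τ s l) s := by
  have h1 : (fun s => crv x0 τ s l) = fun s => (pl x0 τ l).eval s := by
    funext s
    exact (pl_eval x0 τ l s).symm
  rw [h1]
  exact (pl x0 τ l).differentiable.analyticAt s

theorem local_step (hs : Sit f F A L D a b w h T C) {i : I} {γ : Γ} {s0 : ℂ} {z0 : E}
    (ht : Tup f v0 (crv x0 τ s0) i γ z0) (hR : (rq x0 τ (F v0)).eval s0 ≠ 0) (hN : 1 ≤ N)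
    {η m : ℝ} (hη : 0 < η) (hm : 0 < m)
    (heq : Ps f F L D a b N w h v0 x0 τ i γ (s0, z0) * Real.exp (η * ‖s0‖ ^ 2) = m)
    (hle : ∀ᶠ s in 𝓝 s0, ∀ z, Tup f v0 (crv x0 τ s) i γ z → (rq x0 τ (F v0)).eval s ≠ 0 →
      Ps f F L D a b N w h v0 x0 τ i γ (s, z) * Real.exp (η * ‖s‖ ^ 2) ≤ m) : False := by
  classical
  have hcr := fun l => crv_ne hR l
  obtain ⟨d', L', hF'⟩ := hs.cov.div
  have hev : eval (crv x0 τ s0) (F v0) ≠ 0 := by
    rw [rq_eval] at hR
    exact left_ne_zero_of_mul hR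
  have hoff : IsOff F (f.v i z0) (f.x i z0) := off_of_tup hF' hcr ht hev
  set cl : ι → ℂ := fun l => (c l).e γ (f.v i z0) with hcl
  have hcl0 : ∀ l, cl l ≠ 0 := fun l => (c l).ne_zero γ _
  obtain ⟨g, hg, hg0, hgev⟩ := local_lift (u := u) (hs.cov.ana_v i z0 ht.mem)
    (hs.cov.ana_x i z0 ht.mem) hoff.2 hs.cov.dim (hs.cov.imm i z0 ht.mem hoff)
    (X := fun s l => crv x0 τ s l / cl l) (s0 := s0)
    (fun l => (crv_analytic l s0).div analyticAt_const (hcl0 l))
    (fun l => div_ne_zero (hcr l) (hcl0 l)) (fun k => by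
      simp only [div_zpow, Finset.prod_div_distrib]
      rw [← ht.eqx k, eq_div_iff (Finset.prod_ne_zero_iff.2 fun l _ => zpow_ne_zero _ (hcl0 l)),
        ← Finset.prod_mul_distrib]
      refine Finset.prod_congr rfl fun l _ => ?_
      rw [yc, mul_zpow, mul_comm])
  have hUo : g s0 ∈ M.U i := by rw [hg0]; exact ht.mem
  have e1 : ∀ᶠ s in 𝓝 s0, g s ∈ M.U i := hg.continuousAt.eventually ((M.isOpen_U i).mem_nhds hUo)
  have hxl : ∀ l, AnalyticAt ℂ (fun s => f.x i (g s) l) s0 := by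
    intro l
    have h1 : AnalyticAt ℂ (fun z => f.x i z l) (g s0) :=
      ((ContinuousLinearMap.proj (R := ℂ) (φ := fun _ : ι => ℂ) l).analyticAt _).comp
        (hs.cov.ana_x i _ hUo)
    exact h1.comp hg
  have e2 : ∀ᶠ s in 𝓝 s0, ∀ l, f.x i (g s) l ≠ 0 := by
    rw [eventually_all]
    intro l
    refine (hxl l).continuousAt.eventually_ne ?_
    rw [hg0]
    exact hoff.2 l
  have e3 : ∀ᶠ s in 𝓝 s0, (rq x0 τ (F v0)).eval s ≠ 0 :=
    ((rq x0 τ (F v0)).continuous.continuousAt).eventually_ne hR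
  have e4 : ∀ᶠ s in 𝓝 s0, AnalyticAt ℂ g s := by
    have := FiniteDimensional.complete ℂ E
    exact hg.eventually_analyticAt
  have htup : ∀ᶠ s in 𝓝 s0, Tup f v0 (crv x0 τ s) i γ (g s) := by
    filter_upwards [e1, e2, hgev] with s h1 h2 h3
    have h4 : ∀ l, yc f i γ (g s) l = cl l * f.x i (g s) l := fun l => by
      rw [yc, h3.1]
    refine ⟨h1, by rw [h3.1]; exact ht.eqv, fun l => ?_, fun k => ?_⟩
    · rw [h4]
      exact mul_ne_zero (hcl0 l) (h2 l)
    · simp only [h4, mul_zpow, Finset.prod_mul_distrib]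
      rw [h3.2 k, ← Finset.prod_mul_distrib]
      refine Finset.prod_congr rfl fun l _ => ?_
      rw [← mul_zpow, mul_div_cancel₀ _ (hcl0 l)]
  -- the holomorphic factor
  let H : ℂ → ℂ := fun s => ((h i (g s))⁻¹ * L.e γ (f.v i z0) ^ b) ^ N *
    (∏ l, (crv x0 τ s l / (cl l * f.x i (g s) l)) ^ ((b : ℤ) * N * D l)) *
      (rq x0 τ (F v0)).eval s
  have hhg : AnalyticAt ℂ (fun s => h i (g s)) s0 := by
    rw [Complex.analyticAt_iff_eventually_differentiableAt]
    filter_upwards [e1, e4] with s h1 h2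
    have h3 : DifferentiableAt ℂ (h i) (g s) := (hs.hh i).differentiableAt
      ((M.isOpen_U i).mem_nhds h1)
    exact h3.comp s h2.differentiableAt
  have hx00 : ∀ l, cl l * f.x i (g s0) l ≠ 0 := fun l =>
    mul_ne_zero (hcl0 l) (by rw [hg0]; exact hoff.2 l)
  have hH : AnalyticAt ℂ H s0 := by
    refine AnalyticAt.mul (AnalyticAt.mul (AnalyticAt.pow (AnalyticAt.mul
      (hhg.inv (hs.hh0 i _ hUo)) analyticAt_const) N) ?_) ?_
    · refine Finset.analyticAt_fun_prod _ fun l _ => AnalyticAt.zpow ?_ ?_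
      · exact (crv_analytic l s0).div (analyticAt_const.mul (hxl l)) (hx00 l)
      · exact div_ne_zero (hcr l) (hx00 l)
    · exact (rq x0 τ (F v0)).differentiable.analyticAt s0
  have hH0 : H s0 ≠ 0 := by
    refine mul_ne_zero (mul_ne_zero (pow_ne_zero _ (mul_ne_zero (inv_ne_zero (hs.hh0 i _ hUo))
      (pow_ne_zero _ (L.ne_zero γ _)))) (Finset.prod_ne_zero_iff.2 fun l _ =>
        zpow_ne_zero _ (div_ne_zero (hcr l) (hx00 l)))) hR
  have hPs : ∀ s, f.v i (g s) = f.v i z0 → Ps f F L D a b N w h v0 x0 τ i γ (s, g s) =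
      w i (g s) ^ (a * N) * ‖H s‖ := by
    intro s hv
    rw [Ps_eq]
    simp only [H, norm_mul, norm_pow, norm_inv, norm_prod, norm_zpow, norm_div, yc, hv, hcl]
  have hκ : 1 ≤ a * N := Nat.mul_pos hs.ha hN
  refine no_max (hs.psh i) (M.isOpen_U i) hg hUo hH hH0 hκ hη hm ?_ ?_
  · rw [← hPs s0 (by rw [hg0]), hg0]
    exact heq
  · filter_upwards [hle, htup, e3, hgev] with s h1 h2 h3 h4
    rw [← hPs s h4.1]
    exact h1 (g s) h2 h3

/-- A point where the weight is positive, off the divisors. -/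
theorem start (hs : Sit f F A L D a b w h T C) {i1 : I} {z1 : E} (hz1 : z1 ∈ M.U i1)
    (hw1 : w i1 z1 ≠ 0) :
    ∃ (v0 : V) (x0 : ι → ℂ) (i : I) (γ : Γ) (z : E), i ∈ T ∧ (∀ l, x0 l ≠ 0) ∧
      eval x0 (F v0) ≠ 0 ∧ z ∈ C i ∧ Tup f v0 x0 i γ z ∧ 0 < w i z := by
  classical
  obtain ⟨d', L', hF'⟩ := hs.cov.div
  -- a point with these properties in the chart
  obtain ⟨zs, hzs, hoff, hws⟩ : ∃ z ∈ M.U i1, IsOff F (f.v i1 z) (f.x i1 z) ∧ 0 < w i1 z := by
    have hnn := (hs.psh i1).nonneg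
    obtain ⟨ρ, hρ, hball⟩ := Metric.isOpen_iff.1 (M.isOpen_U i1) z1 hz1
    obtain ⟨z2, hz2, hoff2⟩ := hs.cov.dense i1 (Metric.ball z1 ρ) hball Metric.isOpen_ball
      ⟨z1, Metric.mem_ball_self hρ⟩
    let φ : E → ℂ := fun z => eval (f.x i1 z) (F (f.v i1 z)) * ∏ l, f.x i1 z l
    have hφd : DifferentiableOn ℂ φ (M.U i1) := by
      refine (diff_eval hs.fan hF'.holo hF'.deg (f.holo_v i1) (f.holo_x i1)).mul ?_
      have h2 : ∀ t : Finset ι, DifferentiableOn ℂ (fun z => ∏ l ∈ t, f.x i1 z l) (M.U i1) := by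
        intro t
        induction t using Finset.induction_on with
        | empty => simp only [Finset.prod_empty]; exact differentiableOn_const _
        | insert a t ha ih =>
          simp only [Finset.prod_insert ha]
          exact ((differentiableOn_pi.1 (f.holo_x i1)) a).mul ih
      exact h2 Finset.univ
    have hφ0 : ∀ z, φ z ≠ 0 → IsOff F (f.v i1 z) (f.x i1 z) := fun z hz =>
      ⟨left_ne_zero_of_mul hz, fun l =>
        Finset.prod_ne_zero_iff.1 (right_ne_zero_of_mul hz) l (Finset.mem_univ l)⟩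
    have hφ2 : φ z2 ≠ 0 := mul_ne_zero hoff2.1 (Finset.prod_ne_zero_iff.2 fun l _ => hoff2.2 l)
    set e : E := z2 - z1 with he
    rcases eq_or_ne e 0 with he0 | he0
    · have h1 : z2 = z1 := sub_eq_zero.1 he0
      rw [h1] at hoff2
      exact ⟨z1, hz1, hoff2, lt_of_le_of_ne (hnn z1 hz1) (Ne.symm hw1)⟩
    have hen : 0 < ‖e‖ := norm_pos_iff.2 he0
    have hline : ∀ s : ℂ, ‖s‖ * ‖e‖ < ρ → z1 + s • e ∈ M.U i1 := by
      intro s hs'
      apply hball
      rw [Metric.mem_ball, dist_eq_norm, add_sub_cancel_left, norm_smul]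
      exact hs'
    set O : Set ℂ := Metric.ball 0 (ρ / ‖e‖) with hO
    have hOm : ∀ s ∈ O, ‖s‖ * ‖e‖ < ρ := by
      intro s hs'
      rw [hO, Metric.mem_ball, dist_zero_right, lt_div_iff₀ hen] at hs'
      exact hs'
    have hld : Differentiable ℂ fun s : ℂ => z1 + s • e := by fun_prop
    have hkd : DifferentiableOn ℂ (fun s : ℂ => φ (z1 + s • e)) O :=
      hφd.comp hld.differentiableOn fun s hs' => hline s (hOm s hs')
    have hka : AnalyticOnNhd ℂ (fun s : ℂ => φ (z1 + s • e)) O :=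
      hkd.analyticOnNhd Metric.isOpen_ball
    have h0O : (0 : ℂ) ∈ O := Metric.mem_ball_self (div_pos hρ hen)
    have h1O : (1 : ℂ) ∈ O := by
      rw [hO, Metric.mem_ball, dist_zero_right, norm_one, lt_div_iff₀ hen, one_mul, he,
        ← dist_eq_norm]
      exact hz2
    have hev : ∀ᶠ s in 𝓝[≠] (0 : ℂ), φ (z1 + s • e) ≠ 0 := by
      rcases (hka 0 h0O).eventually_eq_zero_or_eventually_ne_zero with h2 | h2
      · exfalso
        have h3 := hka.eqOn_zero_of_preconnected_of_eventuallyEq_zero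
          (convex_ball (0 : ℂ) _).isPreconnected h0O h2 h1O
        apply hφ2
        have h4 : z1 + (1 : ℂ) • e = z2 := by rw [one_smul, he]; abel
        rw [← h4]
        exact h3
      · exact h2
    rw [eventually_nhdsWithin_iff, Metric.eventually_nhds_iff_ball] at hev
    obtain ⟨r0, hr0, hr⟩ := hev
    set r : ℝ := min (r0 / 2) (ρ / (2 * ‖e‖)) with hrdef
    have hrp : 0 < r := lt_min (by positivity) (by positivity)
    have hr1 : r < r0 := lt_of_le_of_lt (min_le_left _ _) (by linarith)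
    have hr2 : r * ‖e‖ < ρ := by
      have h2 : r ≤ ρ / (2 * ‖e‖) := min_le_right _ _
      have h3 : r * ‖e‖ ≤ ρ / (2 * ‖e‖) * ‖e‖ := mul_le_mul_of_nonneg_right h2 hen.le
      have h4 : ρ / (2 * ‖e‖) * ‖e‖ = ρ / 2 := by field_simp
      linarith
    have hmemζ : ∀ ζ : ℂ, ‖ζ‖ ≤ 1 → z1 + (r * ζ) • e ∈ M.U i1 := by
      intro ζ hζ
      apply hline
      rw [norm_mul, Complex.norm_real, Real.norm_of_nonneg hrp.le]
      nlinarith [norm_nonneg ζ, mul_nonneg hrp.le hen.le]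
    by_contra hcon
    push Not at hcon
    have hzero : ∀ ζ : ℂ, ‖ζ‖ = 1 → w i1 (z1 + (r * ζ) • e) = 0 := by
      intro ζ hζ
      have h2 : φ (z1 + (r * ζ) • e) ≠ 0 := by
        refine hr (r * ζ) ?_ ?_
        · rw [Metric.mem_ball, dist_zero_right, norm_mul, Complex.norm_real,
            Real.norm_of_nonneg hrp.le, hζ, mul_one]
          exact hr1
        · intro h3
          have h4 : (r : ℂ) * ζ = 0 := h3
          rcases mul_eq_zero.1 h4 with h5 | h5
          · exact hrp.ne' (by exact_mod_cast h5)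
          · rw [h5, norm_zero] at hζ
            exact zero_ne_one hζ
      exact le_antisymm (hcon _ (hmemζ ζ hζ.le) (hφ0 _ h2)) (hnn _ (hmemζ ζ hζ.le))
    have hga : ∀ ζ : ℂ, AnalyticAt ℂ (fun ζ : ℂ => z1 + (r * ζ) • e) ζ := fun ζ =>
      analyticAt_const.add ((analyticAt_const.mul analyticAt_id).smul analyticAt_const)
    have hle : ∀ ε : ℝ, 0 < ε → w i1 z1 ≤ ε := by
      intro ε hε
      have h2 := (hs.psh i1).disc (fun ζ : ℂ => z1 + (r * ζ) • e) (fun _ => (ε : ℂ))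
        (fun ζ hζ => ⟨hga ζ, hmemζ ζ hζ, analyticAt_const, by exact_mod_cast hε.ne'⟩)
        (fun ζ hζ => by rw [hzero ζ hζ]; exact norm_nonneg _) 0 (by simp)
      simpa [abs_of_pos hε] using h2
    exact hw1 (le_antisymm (le_of_forall_pos_le_add fun ε hε => by
      rw [zero_add]; exact hle ε hε) (hnn z1 hz1))
  have ht : Tup f (f.v i1 zs) (f.x i1 zs) i1 1 zs := by
    have h1 : ∀ l, yc f i1 1 zs l = f.x i1 zs l := by
      intro l
      rw [yc, (c l).stab 1 (f.v i1 zs) rfl, one_mul]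
    exact ⟨hzs, rfl, fun l => by rw [h1]; exact hoff.2 l, fun k => by simp only [h1]⟩
  obtain ⟨i2, hi2, z2, hz2, k, hk1, hk2, hk3, hk4⟩ := hs.cover i1 zs hzs
  subst hk1
  subst hk2
  subst hk4
  refine ⟨_, _, M.t k, _, _, hi2, hoff.2, hoff.1, hz2, tup_move hk3 ht, ?_⟩
  rw [hs.wt k zs hk3]
  refine mul_pos (norm_pos_iff.2 ?_) hws
  exact (A.1 k zs).ne_zero

end Run7.h323.PS
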