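import Pool.Agent.Run7.h323.PS.Top
import Pool.Agent.Run7.h323.PS.Loc

/-!
# Pseudoeffective line bundles on covers of toric bundles are effective on the fibres
-/

set_option autoImplicit false
set_option linter.unusedSectionVars false

namespace Run7.h323.PS

open Pool.Agent.W594.SYZ2 MvPolynomial Q47.TB Q47.FJ Run7.h323.TQ Filter Topology

variable {ι : Type*} [Fintype ι]
  {E I K : Type*} [NormedAddCommGroup E] [NormedSpace ℂ E] [FiniteDimensional ℂ E]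
  {M : Atlas E I K} {V : Type*} [NormedAddCommGroup V] [NormedSpace ℂ V] [FiniteDimensional ℂ V]
  {Γ : Subgroup (V ≃ᵃ[ℂ] V)} {n : ℕ} {u : ι → Fin n → ℤ} {S : Set (Set ι)} {c : ι → LineBundle Γ}
  {f : LiftedMap M u S c} {F : V → MvPolynomial ι ℂ} {L : LineBundle Γ}
    {D : ι → ℤ} {a b : ℕ} {w : I → E → ℝ} {h : I → E → ℂ} {τ : ι → ℕ}
    {A : LB M} {T : Finset I} {C : I → Set E}

theorem crv_zero (x0 : ι → ℂ) (τ : ι → ℕ) : crv x0 τ 0 = x0 := by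
  funext l
  simp [crv]

theorem Ps_pos (hs : Sit f F A L D a b w h T C) {N : ℕ} {v0 : V} {x0 : ι → ℂ} {i : I} {γ : Γ}
    {p : ℂ × E} (ht : Tup f v0 (crv x0 τ p.1) i γ p.2) (hR : (rq x0 τ (F v0)).eval p.1 ≠ 0)
    (hw : 0 < w i p.2) : 0 < Ps f F L D a b N w h v0 x0 τ i γ p := by
  rw [Ps_eq]
  have h1 : 0 < ‖h i p.2‖⁻¹ := inv_pos.2 (norm_pos_iff.2 (hs.hh0 i _ ht.mem))
  have h2 : 0 < ‖L.e γ (f.v i p.2)‖ := norm_pos_iff.2 (L.ne_zero γ _)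
  have h3 : 0 < ‖(rq x0 τ (F v0)).eval p.1‖ := norm_pos_iff.2 hR
  have h4 : 0 < ∏ l, (‖crv x0 τ p.1 l‖ / ‖yc f i γ p.2 l‖) ^ ((b : ℤ) * N * D l) :=
    Finset.prod_pos fun l _ => zpow_pos (div_pos (norm_pos_iff.2 (crv_ne hR l))
      (norm_pos_iff.2 (ht.ne l))) _
  positivity

/-- The degree on the movable curves is nonnegative. -/
theorem nonneg_curve (hs : Sit f F A L D a b w h T C) {i1 : I} {z1 : E} (hz1 : z1 ∈ M.U i1)
    (hw1 : w i1 z1 ≠ 0) (hτ : ∀ k, ∑ l, (τ l : ℤ) * u l k = 0) :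
    0 ≤ ∑ l, (τ l : ℤ) * D l := by
  classical
  by_contra hneg
  push Not at hneg
  have hne : Nonempty ι := by
    by_contra h0
    rw [not_nonempty_iff] at h0
    simp at hneg
  obtain ⟨v0, x0, i0, γ0, z0, hi0, hx0, hF0, hz0, ht0, hw0⟩ := start hs hz1 hw1
  obtain ⟨CR, hCR, hgr⟩ := poly_growth (rq x0 τ (F v0))
  set N := (rq x0 τ (F v0)).natDegree + 1 with hN
  set PF : Set (I × Γ) := {p | p.1 ∈ T ∧ ∃ z ∈ C p.1, (p.2 : V ≃ᵃ[ℂ] V) (f.v p.1 z) = v0}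
    with hPFdef
  have hPF : PF.Finite := by
    have h1 : PF ⊆ ⋃ i ∈ (T : Set I), (fun γ : Γ => (i, γ)) ''
        {γ : Γ | ∃ v ∈ f.v i '' C i, (γ : V ≃ᵃ[ℂ] V) v = v0} := by
      rintro ⟨i, γ⟩ ⟨hi, z, hz, he⟩
      simp only [Set.mem_iUnion]
      exact ⟨i, hi, γ, ⟨f.v i z, ⟨z, hz, rfl⟩, he⟩, rfl⟩
    refine (T.finite_toSet.biUnion fun i hi => ?_).subset h1
    obtain ⟨h2, h3⟩ := hs.cpt i hi
    exact (finite_move hs.tq v0
      (h2.image_of_continuousOn ((f.holo_v i).continuousOn.mono h3))).image _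
  let Ψ : I × Γ → ℂ × E → ℝ := fun p q => Ps f F L D a b N w h v0 x0 τ p.1 p.2 q
  have hΨ0 : ∀ p q, Gd f F v0 x0 τ C p.1 p.2 q → 0 ≤ Ψ p q := fun p q hq =>
    Ps_nonneg hs hq.2.1.mem
  obtain ⟨CC, hCC, hbd⟩ : ∃ CC : ℝ, 0 ≤ CC ∧ ∀ p ∈ PF, ∀ q, Gd f F v0 x0 τ C p.1 p.2 q →
      Ψ p q ≤ CC / mu q.1 := by
    have h1 : ∀ p : I × Γ, ∃ C1 : ℝ, 0 ≤ C1 ∧ (p ∈ PF → ∀ q, Gd f F v0 x0 τ C p.1 p.2 q →
        Ψ p q ≤ C1 / mu q.1) := by
      intro p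
      by_cases hp : p ∈ PF
      · obtain ⟨C1, C2, h1, h2⟩ := bound1 (v0 := v0) hs hx0 hτ hneg hp.1 p.2 N
        refine ⟨C1 * CR, mul_nonneg h1 hCR, fun _ q hq => ((h2 q hq).1).trans ?_⟩
        have hm0 := mu_pos q.1
        calc C1 * (mu q.1 ^ N)⁻¹ * ‖(rq x0 τ (F v0)).eval q.1‖
            ≤ C1 * (mu q.1 ^ N)⁻¹ * (CR * mu q.1 ^ (rq x0 τ (F v0)).natDegree) :=
              mul_le_mul_of_nonneg_left (hgr _) (mul_nonneg h1 (inv_nonneg.2 (pow_nonneg hm0.le _)))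
          _ = C1 * CR / mu q.1 := by
              rw [hN, pow_succ]
              field_simp
      · exact ⟨0, le_refl 0, fun h' => absurd h' hp⟩
    choose C1 hC1 hC1' using h1
    refine ⟨∑ p ∈ hPF.toFinset, C1 p, Finset.sum_nonneg fun p _ => hC1 p,
      fun p hp q hq => (hC1' p hp q hq).trans ?_⟩
    refine div_le_div_of_nonneg_right ?_ (mu_pos _).le
    exact Finset.single_le_sum (f := C1) (fun p _ => hC1 p) (hPF.mem_toFinset.2 hp)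
  have hR0 : (rq x0 τ (F v0)).eval 0 ≠ 0 := by
    rw [rq_eval, crv_zero]
    exact mul_ne_zero hF0 (Finset.prod_ne_zero_iff.2 fun l _ => hx0 l)
  have hst : Gd f F v0 x0 τ C i0 γ0 ((0 : ℂ), z0) :=
    ⟨hz0, by change Tup f v0 (crv x0 τ 0) i0 γ0 z0; rw [crv_zero]; exact ht0, hR0⟩
  have hPF0 : (i0, γ0) ∈ PF := ⟨hi0, z0, hz0, ht0.eqv⟩
  set δ : ℝ := Ψ (i0, γ0) ((0 : ℂ), z0) with hδ
  have hδ0 : 0 < δ := Ps_pos hs hst.2.1 hst.2.2 hw0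
  set R : ℝ := max 1 (2 * CC / δ) with hRdef
  have hR1 : 1 ≤ R := le_max_left _ _
  have hR2 : CC / R ≤ δ / 2 := by
    rw [div_le_iff₀ (by linarith)]
    have h1 : 2 * CC / δ ≤ R := le_max_right _ _
    rw [div_le_iff₀ hδ0] at h1
    linarith
  set η : ℝ := Real.log (3 / 2) / R ^ 2 with hη
  have hη0 : 0 < η := div_pos (Real.log_pos (by norm_num)) (by positivity)
  have hηR : ∀ s : ℂ, ‖s‖ ≤ R → Real.exp (η * ‖s‖ ^ 2) ≤ 3 / 2 := by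
    intro s hsR
    have h1 : η * ‖s‖ ^ 2 ≤ Real.log (3 / 2) := by
      calc η * ‖s‖ ^ 2 ≤ η * R ^ 2 :=
            mul_le_mul_of_nonneg_left (pow_le_pow_left₀ (norm_nonneg _) hsR 2) hη0.le
        _ = Real.log (3 / 2) := by
            rw [hη]
            field_simp
    calc Real.exp (η * ‖s‖ ^ 2) ≤ Real.exp (Real.log (3 / 2)) := Real.exp_le_exp.2 h1
      _ = 3 / 2 := Real.exp_log (by norm_num)
  let Φ : I × Γ → ℂ × E → ℝ := fun p q => Ψ p q * Real.exp (η * ‖q.1‖ ^ 2)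
  have hK : ∀ p : I × Γ, ∃ Kc : Set (ℂ × E), p ∈ PF → IsCompact Kc ∧
      (∀ q ∈ Kc, Gd f F v0 x0 τ C p.1 p.2 q ∧ ‖q.1‖ ≤ R) ∧ UpperSemicontinuousOn (Φ p) Kc ∧
      ∀ q, Gd f F v0 x0 τ C p.1 p.2 q → ‖q.1‖ ≤ R → δ / 2 ≤ Ψ p q → q ∈ Kc := by
    intro p
    by_cases hp : p ∈ PF
    · obtain ⟨Kc, h1, h2, h3, h4⟩ := comp_set (v0 := v0) hs hx0 hτ hneg hp.1 p.2 N R (δ / 2) η
        (by positivity)
      exact ⟨Kc, fun _ => ⟨h1, h2, h3, h4⟩⟩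
    · exact ⟨∅, fun h' => absurd h' hp⟩
  choose Kc hKc using hK
  set PF' : Set (I × Γ) := {p | p ∈ PF ∧ (Kc p).Nonempty} with hPF'
  have hmax : ∀ p : I × Γ, ∃ q : ℂ × E, p ∈ PF' → q ∈ Kc p ∧ ∀ q' ∈ Kc p, Φ p q' ≤ Φ p q := by
    intro p
    by_cases hp : p ∈ PF'
    · obtain ⟨q, hq, hqm⟩ := (hKc p hp.1).2.2.1.exists_isMaxOn hp.2 (hKc p hp.1).1
      exact ⟨q, fun _ => ⟨hq, fun q' hq' => hqm hq'⟩⟩
    · exact ⟨((0 : ℂ), z0), fun h' => absurd h' hp⟩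
  choose q hq using hmax
  have hst' : ((0 : ℂ), z0) ∈ Kc (i0, γ0) :=
    (hKc _ hPF0).2.2.2 _ hst (by simp; linarith) (by change δ / 2 ≤ δ; linarith)
  have hst2 : (i0, γ0) ∈ PF' := ⟨hPF0, _, hst'⟩
  obtain ⟨p, hp, hpmax⟩ := Set.exists_max_image PF' (fun p => Φ p (q p))
    (hPF.subset fun p hp => hp.1) ⟨_, hst2⟩
  set m : ℝ := Φ p (q p) with hm
  have hδm : δ ≤ m := by
    have h1 := (hq _ hst2).2 _ hst'
    have h2 : Φ (i0, γ0) ((0 : ℂ), z0) = δ := by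
      simp only [Φ, norm_zero]
      rw [zero_pow (by norm_num), mul_zero, Real.exp_zero, mul_one]
    rw [h2] at h1
    exact h1.trans (hpmax _ hst2)
  have hm0 : 0 < m := lt_of_lt_of_le hδ0 hδm
  have hglob : ∀ p' ∈ PF, ∀ q', Gd f F v0 x0 τ C p'.1 p'.2 q' → ‖q'.1‖ ≤ R → Φ p' q' ≤ m := by
    intro p' hp' q' hq' hqR
    rcases le_or_gt (δ / 2) (Ψ p' q') with h1 | h1
    · have h2 := (hKc p' hp').2.2.2 q' hq' hqR h1
      have h3 : p' ∈ PF' := ⟨hp', _, h2⟩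
      exact ((hq p' h3).2 q' h2).trans (hpmax p' h3)
    · have h2 := hηR q'.1 hqR
      have h3 := hΨ0 p' q' hq'
      calc Φ p' q' ≤ δ / 2 * (3 / 2) :=
            mul_le_mul h1.le h2 (Real.exp_pos _).le (by positivity)
        _ ≤ δ := by linarith
        _ ≤ m := hδm
  obtain ⟨hqK, -⟩ := hq p hp
  obtain ⟨hqG, hqR⟩ := (hKc p hp.1).2.1 _ hqK
  have hint : ‖(q p).1‖ < R := by
    refine lt_of_le_of_ne hqR fun h1 => ?_
    have h2 := hbd p hp.1 _ hqG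
    have h3 : mu (q p).1 = R := by
      rw [mu, h1]
      exact max_eq_right hR1
    rw [h3] at h2
    have h4 : m ≤ δ / 2 * (3 / 2) :=
      mul_le_mul (h2.trans hR2) (hηR _ hqR) (Real.exp_pos _).le (by positivity)
    linarith
  have hint' : ∀ᶠ s in 𝓝 (q p).1, ‖s‖ < R :=
    (continuous_norm.continuousAt).eventually (gt_mem_nhds hint)
  refine local_step (N := N) hs (z0 := (q p).2) hqG.2.1 hqG.2.2 (by omega) hη0 hm0 rfl ?_
  filter_upwards [hint'] with s hsR z htz hRs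
  obtain ⟨i2, hi2, z2, hz2, k, hk1, hk2, hk3, hk4⟩ := hs.cover p.1 z htz.mem
  subst hk2
  subst hk4
  rw [← hk1] at htz ⊢
  have h1 := tup_move hk3 htz
  have h2 := hglob (M.t k, p.2 * (f.γ k z)⁻¹) ⟨hi2, _, hz2, h1.eqv⟩ (s, M.φ k z) ⟨hz2, h1, hRs⟩
    hsR.le
  simp only [Φ, Ψ] at h2
  rw [Ps_move hs hk3 htz] at h2
  exact h2

/-- **Pseudoeffective line bundles on covers of toric bundles are effective on the fibres.** -/
theorem fibre_eff (hS : IsSmoothFan u S) (hΓ : IsTorusQuotient Γ) (hM : IsCpt M)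
    (hf : IsCover f F) (ha : 1 ≤ a) (hb : 1 ≤ b)
    (hA : IsPullback f (A ^ a) (fun l => b * D l) fun γ v => L.e γ v ^ b) (hp : IsPsef A) :
    ∃ K : ℕ, 1 ≤ K ∧ ∃ β : ι → ℕ, LinEquiv u (fun i => (β i : ℤ)) (fun i => K * D i) := by
  obtain ⟨w, hw, hwt, i1, z1, hz1, hw1⟩ := hp
  obtain ⟨h, hh, hh0, he⟩ := hA
  obtain ⟨T, C, hC, hcov⟩ := hM
  have hs : Sit f F A L D a b w h T C := ⟨hS, hΓ, hf, hw, hwt, hh, hh0, he, hC, hcov, ha, hb⟩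
  exact farkas hS D fun τ hτ => nonneg_curve hs hz1 hw1 hτ

end Run7.h323.PS
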