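import Pool.Agent.Run7.h323.TQ.Main

/-!
# Only finitely many elements of the group move a point to a compact set
-/

set_option autoImplicit false
set_option linter.unusedSectionVars false

namespace Run7.h323.PS

open Pool.Agent.W594.SYZ2 Pool.Agent.W594.SYZ2.TQ

variable {V : Type*} [NormedAddCommGroup V] [NormedSpace ℂ V] [FiniteDimensional ℂ V]
  {Γ : Subgroup (V ≃ᵃ[ℂ] V)}

theorem finite_move (hΓ : IsTorusQuotient Γ) (v0 : V) {C : Set V} (hC : IsCompact C) :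
    {γ : Γ | ∃ v ∈ C, (γ : V ≃ᵃ[ℂ] V) v = v0}.Finite := by
  classical
  have := hΓ.discrete
  -- fibres of the linear part
  have key : ∀ B : V ≃ₗ[ℂ] V,
      {γ : Γ | (γ : V ≃ᵃ[ℂ] V).linear = B ∧ ∃ v ∈ C, (γ : V ≃ᵃ[ℂ] V) v = v0}.Finite := by
    intro B
    by_cases hne : ∃ γ₁ : Γ, (γ₁ : V ≃ᵃ[ℂ] V).linear = B
    · obtain ⟨γ₁, h1⟩ := hne
      have hBC : IsCompact ((fun v => v0 - (γ₁ : V ≃ᵃ[ℂ] V) v) '' C) := by
        refine hC.image ?_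
        have h2 : Continuous fun v => (γ₁ : V ≃ᵃ[ℂ] V) v :=
          ((γ₁ : V ≃ᵃ[ℂ] V) : V →ᵃ[ℂ] V).continuous_of_finiteDimensional
        exact continuous_const.sub h2
      have hcl : IsClosed (latt Γ : Set V) := AddSubgroup.isClosed_of_discrete (H := latt Γ)
      have hfin : ((latt Γ : Set V) ∩ (fun v => v0 - (γ₁ : V ≃ᵃ[ℂ] V) v) '' C).Finite := by
        refine (hBC.inter_left hcl).finite ?_
        exact ⟨DiscreteTopology.of_subset this Set.inter_subset_left⟩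
      refine Set.Finite.of_finite_image (f := fun γ : Γ => (γ : V ≃ᵃ[ℂ] V) 0 -
        (γ₁ : V ≃ᵃ[ℂ] V) 0) (hfin.subset ?_) ?_
      · rintro _ ⟨γ, ⟨hγ, v, hv, hγv⟩, rfl⟩
        have h2 : ∀ w, (γ : V ≃ᵃ[ℂ] V) w = (γ₁ : V ≃ᵃ[ℂ] V) w +
            ((γ : V ≃ᵃ[ℂ] V) 0 - (γ₁ : V ≃ᵃ[ℂ] V) 0) := by
          intro w
          have h3 := (γ : V ≃ᵃ[ℂ] V).map_vadd 0 w
          have h4 := (γ₁ : V ≃ᵃ[ℂ] V).map_vadd 0 w
          simp only [vadd_eq_add, add_zero] at h3 h4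
          rw [h3, h4, hγ, h1]
          abel
        refine ⟨?_, v, hv, ?_⟩
        · change ((γ : V ≃ᵃ[ℂ] V) 0 - (γ₁ : V ≃ᵃ[ℂ] V) 0) ∈ latt Γ
          rw [mem_latt]
          have h5 : AffineEquiv.constVAdd ℂ V ((γ : V ≃ᵃ[ℂ] V) 0 - (γ₁ : V ≃ᵃ[ℂ] V) 0) =
              (γ : V ≃ᵃ[ℂ] V) * (γ₁ : V ≃ᵃ[ℂ] V)⁻¹ := by
            ext w
            change ((γ : V ≃ᵃ[ℂ] V) 0 - (γ₁ : V ≃ᵃ[ℂ] V) 0) + w =
              (γ : V ≃ᵃ[ℂ] V) ((γ₁ : V ≃ᵃ[ℂ] V).symm w)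
            rw [h2 ((γ₁ : V ≃ᵃ[ℂ] V).symm w), AffineEquiv.apply_symm_apply]
            abel
          rw [h5]
          exact Γ.mul_mem γ.2 (Γ.inv_mem γ₁.2)
        · simp only
          rw [← hγv, h2 v]
          abel
      · rintro γ ⟨hγ, -⟩ γ' ⟨hγ', -⟩ heq
        simp only at heq
        apply Subtype.ext
        ext w
        have h3 := (γ : V ≃ᵃ[ℂ] V).map_vadd 0 w
        have h4 := (γ' : V ≃ᵃ[ℂ] V).map_vadd 0 w
        simp only [vadd_eq_add, add_zero] at h3 h4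
        rw [h3, h4, hγ, hγ', sub_left_injective heq]
    · refine Set.Finite.subset Set.finite_empty ?_
      rintro γ ⟨hγ, -⟩
      exact (hne ⟨γ, hγ⟩).elim
  have hsub : {γ : Γ | ∃ v ∈ C, (γ : V ≃ᵃ[ℂ] V) v = v0} ⊆
      ⋃ B ∈ {A : V ≃ₗ[ℂ] V | ∃ γ ∈ Γ, γ.linear = A},
        {γ : Γ | (γ : V ≃ᵃ[ℂ] V).linear = B ∧ ∃ v ∈ C, (γ : V ≃ᵃ[ℂ] V) v = v0} := by
    intro γ hγ
    simp only [Set.mem_iUnion]
    exact ⟨_, ⟨γ, γ.2, rfl⟩, rfl, hγ⟩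
  exact (hΓ.finite_linear.biUnion fun B _ => key B).subset hsub

end Run7.h323.PS
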