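import Pool.Agent.Run7.h323.TQ.Map
import Pool.Agent.Run7.h323.PS.Defs

/-!
# The invariant function on the points over a fibre
-/

set_option autoImplicit false
set_option linter.unusedSectionVars false

namespace Run7.h323.PS

open Pool.Agent.W594.SYZ2 MvPolynomial Q47.TB Q47.FJ Run7.h323.TQ

variable {E I K : Type*} [NormedAddCommGroup E] [NormedSpace ℂ E] {M : Atlas E I K}
  {V : Type*} [NormedAddCommGroup V] [NormedSpace ℂ V] {Γ : Subgroup (V ≃ᵃ[ℂ] V)}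
  {ι : Type*} [Fintype ι] {n : ℕ} {u : ι → Fin n → ℤ} {S : Set (Set ι)} {c : ι → LineBundle Γ}

/-- The Cox coordinates of the image of the point `z` of the chart `i` over the point `γ v`. -/
def yc (f : LiftedMap M u S c) (i : I) (γ : Γ) (z : E) (l : ι) : ℂ :=
  (c l).e γ (f.v i z) * f.x i z l

/-- The invariant function. -/
noncomputable def inv (f : LiftedMap M u S c) (L : LineBundle Γ) (D : ι → ℤ) (a b : ℕ)
    (w : I → E → ℝ) (h : I → E → ℂ) (i : I) (γ : Γ) (z : E) : ℝ :=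
  w i z ^ a / ‖h i z‖ * ‖L.e γ (f.v i z)‖ ^ b * ∏ l, ‖yc f i γ z l‖ ^ (-((b : ℤ) * D l))

/-- The point `z` of the chart `i` is mapped to the point `(v0, X)` of the open orbits. -/
structure Tup (f : LiftedMap M u S c) (v0 : V) (X : ι → ℂ) (i : I) (γ : Γ) (z : E) : Prop where
  mem : z ∈ M.U i
  eqv : (γ : V ≃ᵃ[ℂ] V) (f.v i z) = v0
  ne : ∀ l, yc f i γ z l ≠ 0
  eqx : ∀ k, ∏ l, yc f i γ z l ^ u l k = ∏ l, X l ^ u l k

theorem yc_move (f : LiftedMap M u S c) {k : K} {z : E} (hz : z ∈ M.D k) (γ : Γ) (l : ι) :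
    yc f (M.t k) γ (M.φ k z) l = f.t k z l * yc f (M.s k) (γ * f.γ k z) z l := by
  simp only [yc]
  rw [f.eq_x k z hz l, f.eq_v k z hz, (c l).mul]
  ring

theorem tup_move {f : LiftedMap M u S c} {v0 : V} {X : ι → ℂ} {k : K} {z : E} (hz : z ∈ M.D k)
    {γ : Γ} (h : Tup f v0 X (M.s k) γ z) :
    Tup f v0 X (M.t k) (γ * (f.γ k z)⁻¹) (M.φ k z) := by
  have h1 : γ * (f.γ k z)⁻¹ * f.γ k z = γ := by group
  have h2 : ∀ l, yc f (M.t k) (γ * (f.γ k z)⁻¹) (M.φ k z) l = f.t k z l * yc f (M.s k) γ z l := by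
    intro l
    rw [yc_move f hz, h1]
  refine ⟨M.maps k z hz, ?_, fun l => ?_, fun j => ?_⟩
  · rw [f.eq_v k z hz]
    have h3 : ((γ * (f.γ k z)⁻¹ : Γ) : V ≃ᵃ[ℂ] V) ((f.γ k z : V ≃ᵃ[ℂ] V) (f.v (M.s k) z)) =
        ((γ * (f.γ k z)⁻¹ * f.γ k z : Γ) : V ≃ᵃ[ℂ] V) (f.v (M.s k) z) := rfl
    rw [h3, h1]
    exact h.eqv
  · rw [h2]
    exact mul_ne_zero (f.t k z l).ne_zero (h.ne l)
  · rw [← h.eqx j]
    simp only [h2, mul_zpow, Finset.prod_mul_distrib]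
    have h5 := congrArg (fun w : ℂˣ => (w : ℂ)) (f.t_mem k z hz j)
    simp only [Units.coe_prod, Units.val_zpow_eq_zpow_val, Units.val_one] at h5
    rw [h5, one_mul]

theorem inv_move {f : LiftedMap M u S c} {A : LB M} {L : LineBundle Γ} {D : ι → ℤ} {a b : ℕ}
    {w : I → E → ℝ} {h : I → E → ℂ} (hh0 : ∀ i, ∀ z ∈ M.U i, h i z ≠ 0)
    (hw : ∀ k, ∀ z ∈ M.D k, w (M.t k) (M.φ k z) = ‖ev A k z‖ * w (M.s k) z)
    (he : ∀ k, ∀ z ∈ M.D k, ev (A ^ a) k z * h (M.s k) z =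
      h (M.t k) (M.φ k z) * (L.e (f.γ k z) (f.v (M.s k) z) ^ b *
        ∏ l, (f.t k z l : ℂ) ^ ((b : ℤ) * D l)))
    {v0 : V} {X : ι → ℂ} {k : K} {z : E} (hz : z ∈ M.D k) {γ : Γ}
    (ht : Tup f v0 X (M.s k) γ z) :
    inv f L D a b w h (M.t k) (γ * (f.γ k z)⁻¹) (M.φ k z) = inv f L D a b w h (M.s k) γ z := by
  have h1 : γ * (f.γ k z)⁻¹ * f.γ k z = γ := by group
  have h2 : ∀ l, yc f (M.t k) (γ * (f.γ k z)⁻¹) (M.φ k z) l = f.t k z l * yc f (M.s k) γ z l := by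
    intro l
    rw [yc_move f hz, h1]
  have h3 : L.e γ (f.v (M.s k) z) = L.e (γ * (f.γ k z)⁻¹) (f.v (M.t k) (M.φ k z)) *
      L.e (f.γ k z) (f.v (M.s k) z) := by
    rw [f.eq_v k z hz, ← L.mul, h1]
  have h4 := congrArg norm (he k z hz)
  rw [ev_pow, norm_mul, norm_mul, norm_mul, norm_pow, norm_pow, norm_prod] at h4
  simp only [norm_zpow] at h4
  simp only [inv, h2, norm_mul, mul_zpow, Finset.prod_mul_distrib]
  rw [hw k z hz, h3, norm_mul, mul_pow, mul_pow]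
  have e1 : ‖h (M.t k) (M.φ k z)‖ ≠ 0 := norm_ne_zero_iff.2 (hh0 _ _ (M.maps k z hz))
  have e2 : ‖h (M.s k) z‖ ≠ 0 := norm_ne_zero_iff.2 (hh0 _ _ (M.sub k hz))
  have e3 : ∏ l, ‖(f.t k z l : ℂ)‖ ^ (-((b : ℤ) * D l)) =
      (∏ l, ‖(f.t k z l : ℂ)‖ ^ ((b : ℤ) * D l))⁻¹ := by
    rw [← Finset.prod_inv_distrib]
    exact Finset.prod_congr rfl fun l _ => zpow_neg _ _
  have e4 : ∏ l, ‖(f.t k z l : ℂ)‖ ^ ((b : ℤ) * D l) ≠ 0 :=
    Finset.prod_ne_zero_iff.2 fun l _ => zpow_ne_zero _ (norm_ne_zero_iff.2 (f.t k z l).ne_zero)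
  rw [e3]
  set T := ∏ l, ‖(f.t k z l : ℂ)‖ ^ ((b : ℤ) * D l)
  set Y := ∏ l, ‖yc f (M.s k) γ z l‖ ^ (-((b : ℤ) * D l))
  field_simp
  linear_combination (‖L.e (γ * (f.γ k z)⁻¹) (f.v (M.t k) (M.φ k z))‖ ^ b *
    w (M.s k) z ^ a * Y) * h4

/-- The divisor is compatible with the lifts. -/
theorem off_of_tup {f : LiftedMap M u S c} {F : V → MvPolynomial ι ℂ} {d : ι → ℤ}
    {L : LineBundle Γ} (hF : IsSection u c d L.e F) {v0 : V} {X : ι → ℂ} (hX : ∀ l, X l ≠ 0)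
    {i : I} {γ : Γ} {z : E} (ht : Tup f v0 X i γ z) (h : eval X (F v0) ≠ 0) :
    IsOff F (f.v i z) (f.x i z) := by
  refine ⟨fun h0 => h ?_, fun l hl => ht.ne l (by simp [yc, hl])⟩
  have h1 := hF.eq γ (f.v i z) (f.x i z)
  rw [ht.eqv, h0, mul_zero] at h1
  let t : ι → ℂˣ := fun l => Units.mk0 (X l / yc f i γ z l) (div_ne_zero (hX l) (ht.ne l))
  have h2 : ∀ j, ∏ l, t l ^ u l j = 1 := by
    intro j
    apply Units.ext
    simp only [Units.coe_prod, Units.val_zpow_eq_zpow_val, Units.val_one, t, Units.val_mk0,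
      div_zpow, Finset.prod_div_distrib]
    rw [ht.eqx j]
    exact div_self (Finset.prod_ne_zero_iff.2 fun l _ => zpow_ne_zero _ (hX l))
  have h3 := eval_torus (p := F v0) (hF.deg _) h2 (yc f i γ z)
  have h4 : (fun l => (t l : ℂ) * yc f i γ z l) = X := by
    funext l
    simp only [t, Units.val_mk0]
    exact div_mul_cancel₀ _ (ht.ne l)
  rw [h4] at h3
  rw [h3]
  have h5 : eval (yc f i γ z) (F v0) = 0 := h1
  rw [h5, mul_zero]

end Run7.h323.PS
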