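import Pool.Agent.Run7.h323.PS.Defs

/-!
# Local lifts of discs, and the maximum principle
-/

set_option autoImplicit false
set_option linter.unusedSectionVars false

namespace Run7.h323.PS

open Q47.FJ Filter Topology
open scoped ContDiff

variable {E V : Type*} [NormedAddCommGroup E] [NormedSpace ℂ E] [FiniteDimensional ℂ E]
  [NormedAddCommGroup V] [NormedSpace ℂ V] [FiniteDimensional ℂ V]
  {ι : Type*} [Fintype ι] {n : ℕ} {u : ι → Fin n → ℤ}

theorem local_lift {v : E → V} {x : E → ι → ℂ} {z0 : E} (hv : AnalyticAt ℂ v z0)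
    (hx : AnalyticAt ℂ x z0) (hx0 : ∀ l, x z0 l ≠ 0)
    (hdim : Module.finrank ℂ E = Module.finrank ℂ V + n)
    (himm : ∀ e : E, ZeroY u (x z0) (fderiv ℂ v z0 e) (fderiv ℂ x z0 e) → e = 0)
    {X : ℂ → ι → ℂ} {s0 : ℂ} (hX : ∀ l, AnalyticAt ℂ (fun s => X s l) s0)
    (hX0 : ∀ l, X s0 l ≠ 0)
    (hinc : ∀ k, ∏ l, x z0 l ^ u l k = ∏ l, X s0 l ^ u l k) :
    ∃ g : ℂ → E, AnalyticAt ℂ g s0 ∧ g s0 = z0 ∧
      ∀ᶠ s in 𝓝 s0, v (g s) = v z0 ∧ ∀ k, ∏ l, x (g s) l ^ u l k = ∏ l, X s l ^ u l k := by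
  classical
  have hxl : ∀ l, AnalyticAt ℂ (fun z => x z l) z0 := fun l =>
    ((ContinuousLinearMap.proj (R := ℂ) (φ := fun _ : ι => ℂ) l).analyticAt _).comp hx
  let χ : E → Fin n → ℂ := fun z k => ∏ l, x z l ^ u l k
  have hχ : AnalyticAt ℂ χ z0 := by
    rw [analyticAt_pi_iff]
    intro k
    exact Finset.analyticAt_fun_prod _ fun l _ => (hxl l).zpow (hx0 l)
  let F : E → V × (Fin n → ℂ) := fun z => (v z, χ z)
  have hF : AnalyticAt ℂ F z0 := hv.prod hχ
  have hFd : fderiv ℂ F z0 = (fderiv ℂ v z0).prod (fderiv ℂ χ z0) :=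
    (hv.differentiableAt.hasFDerivAt.prodMk hχ.differentiableAt.hasFDerivAt).fderiv
  have hinj : Function.Injective (fderiv ℂ F z0 : E →ₗ[ℂ] V × (Fin n → ℂ)) := by
    rw [injective_iff_map_eq_zero]
    intro e he
    have he' : fderiv ℂ F z0 e = 0 := he
    rw [hFd, ContinuousLinearMap.prod_apply, Prod.mk_eq_zero] at he'
    refine himm e ⟨he'.1, fun l => fderiv ℂ x z0 e l / x z0 l, fun k => ?_, fun l => ?_⟩
    · -- the logarithmic derivative
      let y : ι → ℂ → ℂ := fun l s => x (z0 + s • e) l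
      have hline : HasDerivAt (fun s : ℂ => z0 + s • e) e 0 := by
        simpa using ((hasDerivAt_id (0 : ℂ)).smul_const e).const_add z0
      have h0 : z0 + (0 : ℂ) • e = z0 := by simp
      have hy : ∀ l, HasDerivAt (y l) (fderiv ℂ x z0 e l) 0 := by
        intro l
        have h1 : HasFDerivAt (fun z => x z l)
            ((ContinuousLinearMap.proj (R := ℂ) (φ := fun _ : ι => ℂ) l).comp (fderiv ℂ x z0))
            (z0 + (0 : ℂ) • e) := by
          rw [h0]
          exact (ContinuousLinearMap.proj (R := ℂ) (φ := fun _ : ι => ℂ) l).hasFDerivAt.comp z0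
            hx.differentiableAt.hasFDerivAt
        exact h1.comp_hasDerivAt (0 : ℂ) hline
      have hχk : HasDerivAt (fun s : ℂ => ∏ l, y l s ^ u l k) (fderiv ℂ χ z0 e k) 0 := by
        have h1 : HasFDerivAt (fun z => χ z k)
            ((ContinuousLinearMap.proj (R := ℂ) (φ := fun _ : Fin n => ℂ) k).comp
              (fderiv ℂ χ z0)) (z0 + (0 : ℂ) • e) := by
          rw [h0]
          exact (ContinuousLinearMap.proj (R := ℂ) (φ := fun _ : Fin n => ℂ) k).hasFDerivAt.comp z0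
            hχ.differentiableAt.hasFDerivAt
        exact h1.comp_hasDerivAt (0 : ℂ) hline
      have hz : deriv (fun s : ℂ => ∏ l, y l s ^ u l k) 0 = 0 := by
        rw [hχk.deriv, he'.2]
        rfl
      have hy0 : ∀ l, y l 0 ≠ 0 := fun l => by
        simp only [y, h0]
        exact hx0 l
      have h2 : logDeriv (fun s : ℂ => ∏ l, y l s ^ u l k) 0 =
          ∑ l, (u l k : ℂ) * (fderiv ℂ x z0 e l / x z0 l) := by
        have h3 : logDeriv (fun s : ℂ => ∏ l, (fun s => y l s ^ u l k) s) 0 =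
            ∑ l, logDeriv (fun s => y l s ^ u l k) 0 := by
          apply logDeriv_prod
          · intro l _
            exact zpow_ne_zero _ (hy0 l)
          · intro l _
            exact ((hy l).differentiableAt).zpow (Or.inl (hy0 l))
        refine h3.trans (Finset.sum_congr rfl fun l _ => ?_)
        rw [logDeriv_fun_zpow (hy l).differentiableAt, logDeriv_apply, (hy l).deriv]
        simp only [y, h0]
      rw [logDeriv_apply, hz, zero_div] at h2
      rw [h2]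
      exact Finset.sum_congr rfl fun l _ => mul_comm _ _
    · rw [div_mul_cancel₀ _ (hx0 l)]
  have hdim' : Module.finrank ℂ E = Module.finrank ℂ (V × (Fin n → ℂ)) := by
    rw [hdim, Module.finrank_prod, Module.finrank_fin_fun]
  let e' : E ≃L[ℂ] V × (Fin n → ℂ) :=
    (LinearEquiv.ofInjectiveOfFinrankEq _ hinj hdim').toContinuousLinearEquiv
  have he' : HasFDerivAt F (e' : E →L[ℂ] V × (Fin n → ℂ)) z0 := by
    have h1 : (e' : E →L[ℂ] V × (Fin n → ℂ)) = fderiv ℂ F z0 := by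
      ext1 y
      rfl
    rw [h1]
    exact hF.differentiableAt.hasFDerivAt
  have hC : ContDiffAt ℂ ω F z0 := hF.contDiffAt
  have hω : (ω : WithTop ℕ∞) ≠ 0 := by simp
  have hs : HasStrictFDerivAt F (e' : E →L[ℂ] V × (Fin n → ℂ)) z0 := hC.hasStrictFDerivAt' he' hω
  have hinv : AnalyticAt ℂ (hC.localInverse he' hω) (F z0) :=
    (hC.to_localInverse he' hω).analyticAt
  let Y : ℂ → V × (Fin n → ℂ) := fun s => (v z0, fun k => ∏ l, X s l ^ u l k)
  have hY : AnalyticAt ℂ Y s0 := by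
    refine analyticAt_const.prod ?_
    rw [analyticAt_pi_iff]
    intro k
    exact Finset.analyticAt_fun_prod _ fun l _ => (hX l).zpow (hX0 l)
  have hY0 : Y s0 = F z0 := by
    simp only [Y, F, χ]
    congr 1
    funext k
    exact (hinc k).symm
  refine ⟨fun s => hC.localInverse he' hω (Y s), ?_, ?_, ?_⟩
  · rw [← hY0] at hinv
    exact hinv.comp hY
  · simp only [hY0]
    exact hC.localInverse_apply_image he' hω
  · have h1 : ∀ᶠ y in 𝓝 (F z0), F (hC.localInverse he' hω y) = y := hs.eventually_right_inverse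
    rw [← hY0] at h1
    have h2 := hY.continuousAt.eventually h1
    filter_upwards [h2] with s h3
    have h4 := congrArg Prod.fst h3
    have h5 := congrArg Prod.snd h3
    exact ⟨h4, fun k => congrFun h5 k⟩

/-- The maximum principle, with a strictly subharmonic factor. -/
theorem no_max {U : Set E} {w : E → ℝ} (hw : IsLogPsh U w) (hU : IsOpen U) {g : ℂ → E} {s0 : ℂ}
    (hg : AnalyticAt ℂ g s0) (hgU : g s0 ∈ U) {H : ℂ → ℂ} (hH : AnalyticAt ℂ H s0)
    (hH0 : H s0 ≠ 0) {κ : ℕ} (hκ : 1 ≤ κ) {η m : ℝ} (hη : 0 < η) (hm : 0 < m)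
    (heq : w (g s0) ^ κ * ‖H s0‖ * Real.exp (η * ‖s0‖ ^ 2) = m)
    (hle : ∀ᶠ s in 𝓝 s0, w (g s) ^ κ * ‖H s‖ * Real.exp (η * ‖s‖ ^ 2) ≤ m) : False := by
  have := FiniteDimensional.complete ℂ E
  have hκ' : (κ : ℝ) ≠ 0 := by
    have : (0 : ℝ) < κ := by exact_mod_cast hκ
    exact this.ne'
  have hκc : (κ : ℂ) ≠ 0 := by exact_mod_cast hκ'
  have e1 : ∀ᶠ s in 𝓝 s0, AnalyticAt ℂ g s := hg.eventually_analyticAt
  have e2 : ∀ᶠ s in 𝓝 s0, AnalyticAt ℂ H s := hH.eventually_analyticAt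
  have e3 : ∀ᶠ s in 𝓝 s0, g s ∈ U := hg.continuousAt.eventually (hU.mem_nhds hgU)
  have e4 : ∀ᶠ s in 𝓝 s0, H s / H s0 ∈ Complex.slitPlane := by
    have h1 : ContinuousAt (fun s => H s / H s0) s0 := hH.continuousAt.div_const _
    refine h1.eventually (Complex.isOpen_slitPlane.mem_nhds ?_)
    change H s0 / H s0 ∈ _
    rw [div_self hH0]
    exact Complex.one_mem_slitPlane
  obtain ⟨r, hr, hball⟩ := Metric.eventually_nhds_iff_ball.1 (e1.and (e2.and (e3.and (e4.and hle))))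
  set ρ : ℝ := r / 2 with hρ
  have hρ0 : 0 < ρ := by positivity
  have hmem : ∀ ζ : ℂ, ‖ζ‖ ≤ 1 → s0 + ρ * ζ ∈ Metric.ball s0 r := by
    intro ζ hζ
    rw [Metric.mem_ball, dist_eq_norm, add_sub_cancel_left, norm_mul, Complex.norm_real,
      Real.norm_of_nonneg hρ0.le]
    nlinarith [norm_nonneg ζ]
  -- the comparison function
  let P : ℂ → ℂ := fun s => ((Real.log m - η * ‖s0‖ ^ 2 - η * ρ ^ 2 - Real.log ‖H s0‖ : ℝ) -
    2 * η * ((s - s0) * (starRingEnd ℂ) s0) - Complex.log (H s / H s0)) / κ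
  have hP : ∀ s ∈ Metric.ball s0 r, AnalyticAt ℂ P s := by
    intro s hs
    obtain ⟨-, h2, -, h4, -⟩ := hball s hs
    refine AnalyticAt.div (AnalyticAt.sub (AnalyticAt.sub analyticAt_const ?_) ?_)
      analyticAt_const hκc
    · exact analyticAt_const.mul ((analyticAt_id.sub analyticAt_const).mul analyticAt_const)
    · exact (h2.div analyticAt_const hH0).clog h4
  have hPn : ∀ s ∈ Metric.ball s0 r, ‖Complex.exp (P s)‖ ^ κ * ‖H s‖ =
      m * Real.exp (-(η * ‖s0‖ ^ 2) - η * ρ ^ 2 - 2 * η * ((s - s0) * (starRingEnd ℂ) s0).re) := by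
    intro s hs
    obtain ⟨-, -, -, h4, -⟩ := hball s hs
    have h5 : H s / H s0 ≠ 0 := Complex.slitPlane_ne_zero h4
    have h6 : H s ≠ 0 := fun h => h5 (by rw [h, zero_div])
    rw [← norm_pow, ← Complex.exp_nat_mul]
    have h7 : (κ : ℂ) * P s = (Real.log m - η * ‖s0‖ ^ 2 - η * ρ ^ 2 - Real.log ‖H s0‖ : ℝ) -
        2 * η * ((s - s0) * (starRingEnd ℂ) s0) - Complex.log (H s / H s0) := by
      simp only [P]
      field_simp
    rw [h7, Complex.norm_exp]
    have h8 : (((Real.log m - η * ‖s0‖ ^ 2 - η * ρ ^ 2 - Real.log ‖H s0‖ : ℝ) : ℂ) -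
        2 * η * ((s - s0) * (starRingEnd ℂ) s0) - Complex.log (H s / H s0)).re =
        Real.log m + (-(η * ‖s0‖ ^ 2) - η * ρ ^ 2 - 2 * η * ((s - s0) * (starRingEnd ℂ) s0).re) -
          Real.log ‖H s‖ := by
      have h9 : (Complex.log (H s / H s0)).re = Real.log ‖H s‖ - Real.log ‖H s0‖ := by
        rw [Complex.log_re, norm_div, Real.log_div (norm_ne_zero_iff.2 h6)
          (norm_ne_zero_iff.2 hH0)]
      have h10 : (2 * (η : ℂ) * ((s - s0) * (starRingEnd ℂ) s0)).re =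
          2 * η * ((s - s0) * (starRingEnd ℂ) s0).re := by
        have : (2 * (η : ℂ)) = ((2 * η : ℝ) : ℂ) := by push_cast; ring
        rw [this, Complex.re_ofReal_mul]
      rw [Complex.sub_re, Complex.sub_re, h9, h10, Complex.ofReal_re]
      ring
    rw [h8, Real.exp_sub, Real.exp_add, Real.exp_log hm, Real.exp_log (norm_pos_iff.2 h6)]
    field_simp
  have hH' : ∀ s ∈ Metric.ball s0 r, 0 < ‖H s‖ := by
    intro s hs
    obtain ⟨-, -, -, h4, -⟩ := hball s hs
    refine norm_pos_iff.2 fun h => Complex.slitPlane_ne_zero h4 (by rw [h, zero_div])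
  have hline : ∀ ζ : ℂ, AnalyticAt ℂ (fun ζ : ℂ => s0 + ρ * ζ) ζ := fun ζ =>
    analyticAt_const.add (analyticAt_const.mul analyticAt_id)
  have key := hw.disc (fun ζ => g (s0 + ρ * ζ)) (fun ζ => Complex.exp (P (s0 + ρ * ζ)))
    (fun ζ hζ => by
      obtain ⟨h1, h2, h3, h4, h5⟩ := hball _ (hmem ζ hζ)
      exact ⟨AnalyticAt.comp (f := fun ζ : ℂ => s0 + ρ * ζ) (x := ζ) h1 (hline ζ), h3,
        (AnalyticAt.comp (f := fun ζ : ℂ => s0 + ρ * ζ) (x := ζ) (hP _ (hmem ζ hζ))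
          (hline ζ)).cexp, Complex.exp_ne_zero _⟩)
    (fun ζ hζ => by
      obtain ⟨h1, h2, h3, h4, h5⟩ := hball _ (hmem ζ hζ.le)
      have h6 := hPn _ (hmem ζ hζ.le)
      have h7 : ‖s0 + ρ * ζ‖ ^ 2 = ‖s0‖ ^ 2 + 2 * ((s0 + ρ * ζ - s0) * (starRingEnd ℂ) s0).re +
          ρ ^ 2 := by
        have h8 : ‖ζ‖ ^ 2 = 1 := by rw [hζ, one_pow]
        rw [← Complex.normSq_eq_norm_sq] at h8 ⊢
        rw [← Complex.normSq_eq_norm_sq]
        simp only [Complex.normSq_apply, Complex.add_re, Complex.add_im, Complex.mul_re,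
          Complex.mul_im, Complex.ofReal_re, Complex.ofReal_im, Complex.sub_re, Complex.sub_im,
          Complex.conj_re, Complex.conj_im] at h8 ⊢
        linear_combination ρ ^ 2 * h8
      have h8 : w (g (s0 + ρ * ζ)) ^ κ * ‖H (s0 + ρ * ζ)‖ ≤
          m * Real.exp (-(η * ‖s0‖ ^ 2) - η * ρ ^ 2 -
            2 * η * ((s0 + ρ * ζ - s0) * (starRingEnd ℂ) s0).re) := by
        have h9 : Real.exp (-(η * ‖s0‖ ^ 2) - η * ρ ^ 2 -
            2 * η * ((s0 + ρ * ζ - s0) * (starRingEnd ℂ) s0).re) =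
            (Real.exp (η * ‖s0 + ρ * ζ‖ ^ 2))⁻¹ := by
          rw [← Real.exp_neg, h7]
          congr 1
          ring
        rw [h9, ← div_eq_mul_inv, le_div_iff₀ (Real.exp_pos _)]
        exact h5
      rw [← h6] at h8
      have h9 := le_of_mul_le_mul_right h8 (hH' _ (hmem ζ hζ.le))
      exact le_of_pow_le_pow_left₀ (by omega) (norm_nonneg _) h9) 0 (by simp)
  simp only [mul_zero, add_zero] at key
  have h1 := hPn s0 (Metric.mem_ball_self hr)
  simp only [sub_self, zero_mul, Complex.zero_re, mul_zero, sub_zero] at h1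
  have h2 : w (g s0) ^ κ * ‖H s0‖ ≤ m * Real.exp (-(η * ‖s0‖ ^ 2) - η * ρ ^ 2) := by
    rw [← h1]
    exact mul_le_mul_of_nonneg_right (pow_le_pow_left₀ (hw.nonneg _ hgU) key κ) (norm_nonneg _)
  have h3 : m ≤ m * Real.exp (-(η * ρ ^ 2)) := by
    calc m = w (g s0) ^ κ * ‖H s0‖ * Real.exp (η * ‖s0‖ ^ 2) := heq.symm
      _ ≤ m * Real.exp (-(η * ‖s0‖ ^ 2) - η * ρ ^ 2) * Real.exp (η * ‖s0‖ ^ 2) :=
        mul_le_mul_of_nonneg_right h2 (Real.exp_pos _).le
      _ = m * Real.exp (-(η * ρ ^ 2)) := by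
        rw [mul_assoc, ← Real.exp_add]
        congr 2
        ring
  have h4 : Real.exp (-(η * ρ ^ 2)) < 1 := by
    rw [Real.exp_lt_one_iff]
    have : 0 < η * ρ ^ 2 := by positivity
    linarith
  nlinarith

end Run7.h323.PS
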