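import Pool.Agent.Run7.h323.TQ.Eff
import Pool.Agent.Run7.h323.PS.Defs

/-!
# Sections of multiples of log canonical divisors on toric bundles which are effective on the fibres
-/

set_option autoImplicit false
set_option linter.unusedSectionVars false

namespace Run7.h323.PS

open Pool.Agent.W594.SYZ2 Pool.Agent.W594.SYZ2.TQ Pool.Agent.TH735.AQ MvPolynomial Q47.TB Q47.EB
  Q47.KN Q47.MM Q47.FJ Run7.h323.TQ

section pull

variable {V : Type*} [NormedAddCommGroup V] [NormedSpace ℂ V]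
  {Γ : Subgroup (V ≃ᵃ[ℂ] V)} {ι : Type*} [Fintype ι] {n : ℕ}
  {E I K : Type*} [NormedAddCommGroup E] [NormedSpace ℂ E] {M : Atlas E I K}

/-- A section pulls back. -/
theorem sec_pullback {u : ι → Fin n → ℤ} {S : Set (Set ι)} (hS : IsSmoothFan u S)
    {c : ι → LineBundle Γ} (f : LiftedMap M u S c) {A : LB M} {b : ℕ} {d : ι → ℤ} {L : LineBundle Γ}
    {h : I → E → ℂ} (hh : ∀ i, DifferentiableOn ℂ (h i) (M.U i))
    (he : ∀ k, ∀ z ∈ M.D k, ev A k z * h (M.s k) z =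
      h (M.t k) (M.φ k z) * (L.e (f.γ k z) (f.v (M.s k) z) ^ b *
        ∏ l, (f.t k z l : ℂ) ^ ((b : ℤ) * d l))) {N : ℕ}
    {G : V → MvPolynomial ι ℂ}
    (hG : IsSection u c (fun i => N * d i) (fun γ v => L.e γ v ^ N) G) :
    IsSec (A ^ N) fun i z => h i z ^ N * (eval (f.x i z) (G (f.v i z))) ^ b := by
  refine ⟨fun i => ?_, ?_⟩
  · refine ((hh i).pow N).mul (DifferentiableOn.pow ?_ b)
    exact diff_eval hS hG.holo hG.deg (f.holo_v i) (f.holo_x i)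
  · intro k z hz
    have h1 : f.x (M.t k) (M.φ k z) = fun l => (f.t k z l : ℂ) *
        ((c l).e (f.γ k z) (f.v (M.s k) z) * f.x (M.s k) z l) := funext (f.eq_x k z hz)
    have h2 := eval_torus (p := G (f.v (M.t k) (M.φ k z))) (hG.deg _) (f.t_mem k z hz)
      (fun l => (c l).e (f.γ k z) (f.v (M.s k) z) * f.x (M.s k) z l)
    rw [← h1] at h2
    have h3 := hG.eq (f.γ k z) (f.v (M.s k) z) (f.x (M.s k) z)
    rw [← f.eq_v k z hz] at h3
    rw [h2, h3]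
    have h4 := congrArg (· ^ N) (he k z hz)
    simp only [mul_pow] at h4
    have h7 : (∏ l, (f.t k z l : ℂ) ^ ((N : ℤ) * d l)) ^ b =
        (∏ l, (f.t k z l : ℂ) ^ ((b : ℤ) * d l)) ^ N := by
      rw [← Finset.prod_pow, ← Finset.prod_pow]
      refine Finset.prod_congr rfl fun l _ => ?_
      rw [← zpow_natCast, ← zpow_mul, ← zpow_natCast, ← zpow_mul]
      congr 1
      ring
    rw [ev_pow]
    rw [mul_pow, mul_pow, h7]
    have h8 : (L.e (f.γ k z) (f.v (M.s k) z) ^ N) ^ b =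
        (L.e (f.γ k z) (f.v (M.s k) z) ^ b) ^ N := by
      rw [← pow_mul, ← pow_mul, mul_comm]
    rw [h8]
    linear_combination (-(eval (f.x (M.s k) z) (G (f.v (M.s k) z))) ^ b) * h4

end pull

/-- A section of a power of a line bundle shows that it is pseudoeffective. -/
theorem psef_of_sec {E I K : Type*} [NormedAddCommGroup E] [NormedSpace ℂ E] {M : Atlas E I K}
    {A : LB M} {N : ℕ} (hN : 1 ≤ N) (h : HasSec (A ^ N)) : IsPsef A := by
  obtain ⟨f, hf, i0, z0, hz0, hf0⟩ := h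
  have hN' : (N : ℝ) ≠ 0 := by
    have : (0 : ℝ) < N := by exact_mod_cast hN
    exact this.ne'
  have hNi : (0 : ℝ) ≤ (N : ℝ)⁻¹ := by positivity
  refine ⟨fun i z => ‖f i z‖ ^ ((N : ℝ)⁻¹), fun i => ⟨fun z _ => Real.rpow_nonneg (norm_nonneg _) _,
    ?_, ?_⟩, ?_, i0, z0, hz0, ?_⟩
  · exact (((hf.holo i).continuousOn.norm).rpow_const fun z _ => Or.inr hNi).upperSemicontinuousOn
  · intro g q hg hb s hs
    have hpow : ∀ x : ℝ, 0 ≤ x → ∀ y : ℝ, 0 ≤ y → (x ^ ((N : ℝ)⁻¹) ≤ y ↔ x ≤ y ^ N) := by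
      intro x hx y hy
      rw [← Real.rpow_natCast y N, Real.rpow_inv_le_iff_of_pos hx hy
        (by exact_mod_cast hN)]
    have h1 : ∀ s, ‖s‖ ≤ 1 → DifferentiableAt ℂ (fun s => f i (g s) / q s ^ N) s := by
      intro s hs
      obtain ⟨h2, h3, h4, h5⟩ := hg s hs
      have h6 : DifferentiableAt ℂ (f i) (g s) := (hf.holo i).differentiableAt
        ((M.isOpen_U i).mem_nhds h3)
      exact (h6.comp s h2.differentiableAt).div (h4.differentiableAt.pow N) (pow_ne_zero _ h5)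
    have h2 : ∀ s, ‖s‖ = 1 → ‖f i (g s) / q s ^ N‖ ≤ 1 := by
      intro s hs
      have h3 := (hpow _ (norm_nonneg _) _ (norm_nonneg _)).1 (hb s hs)
      obtain ⟨-, -, -, h5⟩ := hg s hs.le
      rw [norm_div, norm_pow]
      exact div_le_one_of_le₀ h3 (pow_nonneg (norm_nonneg _) _)
    have h3 : ‖f i (g s) / q s ^ N‖ ≤ 1 := by
      refine Complex.norm_le_of_forall_mem_frontier_norm_le (U := Metric.ball (0 : ℂ) 1)
        (f := fun s => f i (g s) / q s ^ N) (z := s)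
        Metric.isBounded_ball ⟨fun s hs => ?_, fun s hs => ?_⟩ (fun s hs => ?_) ?_
      · exact (h1 s (by simpa using (Metric.mem_ball.1 hs).le)).differentiableWithinAt
      · rw [closure_ball (0 : ℂ) one_ne_zero] at hs
        exact (h1 s (by simpa using hs)).continuousAt.continuousWithinAt
      · rw [frontier_ball (0 : ℂ) one_ne_zero] at hs
        exact h2 s (by simpa using hs)
      · rw [closure_ball (0 : ℂ) one_ne_zero]
        simpa using hs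
    rw [hpow _ (norm_nonneg _) _ (norm_nonneg _)]
    obtain ⟨-, -, -, h5⟩ := hg s hs
    rw [norm_div, norm_pow, div_le_one (pow_pos (norm_pos_iff.2 h5) _)] at h3
    exact h3
  · intro k z hz
    change ‖f (M.t k) (M.φ k z)‖ ^ ((N : ℝ)⁻¹) = ‖ev A k z‖ * ‖f (M.s k) z‖ ^ ((N : ℝ)⁻¹)
    rw [hf.eq k z hz, ev_pow, norm_mul, Real.mul_rpow (norm_nonneg _) (norm_nonneg _), norm_pow,
      Real.pow_rpow_inv_natCast (norm_nonneg _) (by omega)]
  · exact (Real.rpow_pos_of_pos (norm_pos_iff.2 hf0) _).ne'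

theorem sec_mul {E I K : Type*} [NormedAddCommGroup E] [NormedSpace ℂ E] {M : Atlas E I K}
    {A : LB M} (h : HasSec A) {N : ℕ} : HasSec (A ^ N) := by
  obtain ⟨f, hf, i0, z0, hz0, hf0⟩ := h
  refine ⟨fun i z => f i z ^ N, ⟨fun i => (hf.holo i).pow N, fun k z hz => ?_⟩, i0, z0, hz0,
    pow_ne_zero _ hf0⟩
  rw [hf.eq k z hz, ev_pow, mul_pow]

variable {ι : Type} [Fintype ι] {n : ℕ} {u : ι → Fin n → ℤ} {S : Set (Set ι)} {m : ℕ} {d : ι → ℤ}
  {g : ℕ}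

/-- A section of a multiple, in the unramified case. -/
theorem sec_of_comb (g : ℕ) {K : ℕ} {β : ι → ℕ}
    (hβ : LinEquiv u (fun i => (β i : ℤ)) (fun i => K * (d i - m))) (P : Pr u S m d g)
    (hmir : ∀ v, ¬ OnMirror P.Γ v) {b : (ι →₀ ℕ) → ℕ}
    (hb : ∀ i, ∑ α ∈ (P.F P.v₀ ^ K).support, b α * α i =
      (∑ α ∈ (P.F P.v₀ ^ K).support, b α) * (m * K + β i)) :
    ∃ G, IsSection u P.c (fun i => ((K * ((∑ α ∈ (P.F P.v₀ ^ K).support, b α) * mink g) : ℕ) : ℤ) *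
        (d i - m)) (P.L.pow (K * ((∑ α ∈ (P.F P.v₀ ^ K).support, b α) * mink g))).e G ∧
      ∃ s : P.V → ℂ, Differentiable ℂ s ∧ (∃ v, s v ≠ 0) ∧
        ∀ v x, (∀ l, x l ≠ 0) → s v ≠ 0 → eval x (G v) ≠ 0 := by
  classical
  set T := (P.F P.v₀ ^ K).support with hT
  set K' := ∑ α ∈ T, b α with hK'
  have hlog := log_of_comb (log_pow P.hF K) T hb
  have hhol : ∀ α, Differentiable ℂ fun v => coeff α (P.F v ^ K) := coeff_pow_diff P.hF.holo K
  set Q : P.V → ℂ := fun v => ∏ α ∈ T, coeff α (P.F v ^ K) ^ b α with hQ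
  have hP : Differentiable ℂ Q :=
    prod_diff T (fun α v => coeff α (P.F v ^ K) ^ b α) fun α => (hhol α).pow _
  have hP0 : ∃ v, Q v ≠ 0 := by
    refine ⟨P.v₀, Finset.prod_ne_zero_iff.2 fun α hα => pow_ne_zero _ ?_⟩
    rw [hT] at hα
    exact mem_support_iff.1 hα
  obtain ⟨v₁, hv₁⟩ := hP0
  have hρ0 : ∀ v, P.ρ v ≠ 0 := fun v h => hmir v ((P.hρ.zero_iff v).1 h)
  have := finite_Lin P.hΓ
  have : Fintype (Lin P.Γ) := Fintype.ofFinite _
  set N := mink g with hN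
  have hdvd : Nat.card (Lin P.Γ) ∣ N := (card_Lin_dvd P.hΓ).trans (mink_dvd P.dim)
  have hdet : ∀ γ : P.Γ, LinearMap.det ((γ : P.V ≃ᵃ[ℂ] P.V).linear : P.V →ₗ[ℂ] P.V) ^ N = 1 := by
    intro γ
    obtain ⟨r, hr⟩ := hdvd
    have h1 : (⟨(γ : P.V ≃ᵃ[ℂ] P.V).linear, mem_Lin.2 ⟨_, γ.2, rfl⟩⟩ : Lin P.Γ) ^
        Nat.card (Lin P.Γ) = 1 := pow_card_eq_one'
    obtain ⟨C, hC⟩ : ∃ C, C = Nat.card (Lin P.Γ) := ⟨_, rfl⟩
    rw [← hC] at h1 hr
    have h2 : ((γ : P.V ≃ᵃ[ℂ] P.V).linear) ^ C = 1 := by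
      have := congrArg Subtype.val h1
      simpa using this
    have h3 : ((γ : P.V ≃ᵃ[ℂ] P.V).linear : P.V →ₗ[ℂ] P.V) ^ C = 1 := by
      have h4 := map_pow (LinearEquiv.automorphismGroup.toLinearMapMonoidHom (R := ℂ) (M := P.V))
        (γ : P.V ≃ᵃ[ℂ] P.V).linear C
      rw [h2, map_one] at h4
      exact h4.symm
    rw [hr, pow_mul, ← map_pow, h3, map_one, one_pow]
  set MM := m * K * K' with hMM
  set W := tw (P.L.pow K) P.c K' β
  set s : P.V → ℂ := fun v => (Q v * (P.ρ v ^ MM)⁻¹) ^ N with hs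
  have hsec : (W.pow N).IsSection s := by
    refine ⟨(hP.mul ((P.hρ.holo.pow MM).inv fun v => pow_ne_zero _ (hρ0 v))).pow N,
      fun γ v => ?_⟩
    have h1 := hlog γ v
    have h2 := hρ0 v
    have h3 := hρ0 ((γ : P.V ≃ᵃ[ℂ] P.V) v)
    have h4 : Q ((γ : P.V ≃ᵃ[ℂ] P.V) v) * (P.ρ ((γ : P.V ≃ᵃ[ℂ] P.V) v) ^ MM)⁻¹ =
        W.e γ v * LinearMap.det ((γ : P.V ≃ᵃ[ℂ] P.V).linear : P.V →ₗ[ℂ] P.V) ^ MM *
          (Q v * (P.ρ v ^ MM)⁻¹) := by
      field_simp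
      linear_combination h1
    change (Q ((γ : P.V ≃ᵃ[ℂ] P.V) v) * (P.ρ ((γ : P.V ≃ᵃ[ℂ] P.V) v) ^ MM)⁻¹) ^ N =
      W.e γ v ^ N * (Q v * (P.ρ v ^ MM)⁻¹) ^ N
    rw [h4, mul_pow, mul_pow, ← pow_mul, mul_comm MM N, pow_mul, hdet, one_pow, mul_one]
  have h1 := isSection_monomial hβ hsec
  refine ⟨fun v => monomial (Finsupp.equivFunOnFinite.symm fun i => K' * N * β i) (s v), ?_,
    s, hsec.1, ⟨v₁, pow_ne_zero _ (mul_ne_zero hv₁ (inv_ne_zero (pow_ne_zero _ (hρ0 v₁))))⟩,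
    fun v x hx hsv => ?_⟩
  · have h2 : (fun i => ((K' * N : ℕ) : ℤ) * (K * (d i - m)))
        = fun i => ((K * (K' * N) : ℕ) : ℤ) * (d i - m) := by
      funext i
      push_cast
      ring
    have h3 : (fun (γ : P.Γ) (v : P.V) => (P.L.pow K).e γ v ^ (K' * N)) =
        (P.L.pow (K * (K' * N))).e := by
      funext γ v
      change (P.L.e γ v ^ K) ^ (K' * N) = P.L.e γ v ^ (K * (K' * N))
      rw [← pow_mul]
    rw [h2, h3] at h1
    exact h1
  · rw [eval_monomial, Finsupp.prod_fintype _ _ fun i => pow_zero _]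
    exact mul_ne_zero hsv (Finset.prod_ne_zero_iff.2 fun i _ => pow_ne_zero _ (hx i))

end Run7.h323.PS
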