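import Pool.Agent.Run7.h323.PS.Fib
import Pool.Agent.Run7.h323.PS.Sec

/-!
# Generically finite maps to toric bundles are open at general points, and the main theorem
-/

set_option autoImplicit false
set_option linter.unusedSectionVars false

namespace Run7.h323.PS

open Pool.Agent.W594.SYZ2 Pool.Agent.W594.SYZ2.TQ Pool.Agent.TH735.AQ MvPolynomial Q47.TB Q47.EB
  Q47.FJ Run7.h323.TQ Filter Topology

section

variable {E V : Type*} [NormedAddCommGroup E] [NormedSpace ℂ E] [FiniteDimensional ℂ E]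
  [NormedAddCommGroup V] [NormedSpace ℂ V] [FiniteDimensional ℂ V]
  {ι : Type*} [Fintype ι] {n : ℕ} {u : ι → Fin n → ℤ}

theorem v_open {v : E → V} {x : E → ι → ℂ} {z0 : E} (hv : AnalyticAt ℂ v z0)
    (hx : AnalyticAt ℂ x z0) (hx0 : ∀ l, x z0 l ≠ 0)
    (hdim : Module.finrank ℂ E = Module.finrank ℂ V + n)
    (himm : ∀ e : E, ZeroY u (x z0) (fderiv ℂ v z0 e) (fderiv ℂ x z0 e) → e = 0) :
    map v (𝓝 z0) = 𝓝 (v z0) := by
  classical
  have hxl : ∀ l, AnalyticAt ℂ (fun z => x z l) z0 := fun l =>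
    ((ContinuousLinearMap.proj (R := ℂ) (φ := fun _ : ι => ℂ) l).analyticAt _).comp hx
  let χ : E → Fin n → ℂ := fun z k => ∏ l, x z l ^ u l k
  have hχ : AnalyticAt ℂ χ z0 := by
    rw [analyticAt_pi_iff]
    intro k
    exact Finset.analyticAt_fun_prod _ fun l _ => (hxl l).zpow (hx0 l)
  let F : E → V × (Fin n → ℂ) := fun z => (v z, χ z)
  have hF : AnalyticAt ℂ F z0 := hv.prod hχ
  have hFd : fderiv ℂ F z0 = (fderiv ℂ v z0).prod (fderiv ℂ χ z0) :=
    (hv.differentiableAt.hasFDerivAt.prodMk hχ.differentiableAt.hasFDerivAt).fderiv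
  have hinj : Function.Injective (fderiv ℂ F z0 : E →ₗ[ℂ] V × (Fin n → ℂ)) := by
    rw [injective_iff_map_eq_zero]
    intro e he
    have he' : fderiv ℂ F z0 e = 0 := he
    rw [hFd, ContinuousLinearMap.prod_apply, Prod.mk_eq_zero] at he'
    refine himm e ⟨he'.1, fun l => fderiv ℂ x z0 e l / x z0 l, fun k => ?_, fun l => ?_⟩
    · -- the logarithmic derivative
      let y : ι → ℂ → ℂ := fun l s => x (z0 + s • e) l
      have hline : HasDerivAt (fun s : ℂ => z0 + s • e) e 0 := by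
        simpa using ((hasDerivAt_id (0 : ℂ)).smul_const e).const_add z0
      have h0 : z0 + (0 : ℂ) • e = z0 := by simp
      have hy : ∀ l, HasDerivAt (y l) (fderiv ℂ x z0 e l) 0 := by
        intro l
        have h1 : HasFDerivAt (fun z => x z l)
            ((ContinuousLinearMap.proj (R := ℂ) (φ := fun _ : ι => ℂ) l).comp (fderiv ℂ x z0))
            (z0 + (0 : ℂ) • e) := by
          rw [h0]
          exact (ContinuousLinearMap.proj (R := ℂ) (φ := fun _ : ι => ℂ) l).hasFDerivAt.comp z0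
            hx.differentiableAt.hasFDerivAt
        exact h1.comp_hasDerivAt (0 : ℂ) hline
      have hχk : HasDerivAt (fun s : ℂ => ∏ l, y l s ^ u l k) (fderiv ℂ χ z0 e k) 0 := by
        have h1 : HasFDerivAt (fun z => χ z k)
            ((ContinuousLinearMap.proj (R := ℂ) (φ := fun _ : Fin n => ℂ) k).comp
              (fderiv ℂ χ z0)) (z0 + (0 : ℂ) • e) := by
          rw [h0]
          exact (ContinuousLinearMap.proj (R := ℂ) (φ := fun _ : Fin n => ℂ) k).hasFDerivAt.comp z0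
            hχ.differentiableAt.hasFDerivAt
        exact h1.comp_hasDerivAt (0 : ℂ) hline
      have hz : deriv (fun s : ℂ => ∏ l, y l s ^ u l k) 0 = 0 := by
        rw [hχk.deriv, he'.2]
        rfl
      have hy0 : ∀ l, y l 0 ≠ 0 := fun l => by
        simp only [y, h0]
        exact hx0 l
      have h2 : logDeriv (fun s : ℂ => ∏ l, y l s ^ u l k) 0 =
          ∑ l, (u l k : ℂ) * (fderiv ℂ x z0 e l / x z0 l) := by
        have h3 : logDeriv (fun s : ℂ => ∏ l, (fun s => y l s ^ u l k) s) 0 =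
            ∑ l, logDeriv (fun s => y l s ^ u l k) 0 := by
          apply logDeriv_prod
          · intro l _
            exact zpow_ne_zero _ (hy0 l)
          · intro l _
            exact ((hy l).differentiableAt).zpow (Or.inl (hy0 l))
        refine h3.trans (Finset.sum_congr rfl fun l _ => ?_)
        rw [logDeriv_fun_zpow (hy l).differentiableAt, logDeriv_apply, (hy l).deriv]
        simp only [y, h0]
      rw [logDeriv_apply, hz, zero_div] at h2
      rw [h2]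
      exact Finset.sum_congr rfl fun l _ => mul_comm _ _
    · rw [div_mul_cancel₀ _ (hx0 l)]
  have := FiniteDimensional.complete ℂ E
  have := FiniteDimensional.complete ℂ V
  have hdim' : Module.finrank ℂ E = Module.finrank ℂ (V × (Fin n → ℂ)) := by
    rw [hdim, Module.finrank_prod, Module.finrank_fin_fun]
  have hsurj : Function.Surjective (fderiv ℂ F z0 : E →ₗ[ℂ] V × (Fin n → ℂ)) :=
    (LinearMap.injective_iff_surjective_of_finrank_eq_finrank hdim').1 hinj
  refine HasStrictFDerivAt.map_nhds_eq_of_surj (f' := fderiv ℂ v z0) hv.hasStrictFDerivAt ?_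
  rw [LinearMap.range_eq_top]
  intro y
  obtain ⟨e, he⟩ := hsurj (y, 0)
  refine ⟨e, ?_⟩
  have he' : fderiv ℂ F z0 e = (y, 0) := he
  rw [hFd, ContinuousLinearMap.prod_apply] at he'
  exact congrArg Prod.fst he'

end

/-- An entire function which is zero near a point is zero. -/
theorem entire_zero {V : Type*} [NormedAddCommGroup V] [NormedSpace ℂ V] {s : V → ℂ}
    (hs : Differentiable ℂ s) {v0 : V} (h0 : ∀ᶠ v in 𝓝 v0, s v = 0) (v : V) : s v = 0 := by
  let k : ℂ → ℂ := fun t => s (v0 + t • (v - v0))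
  have hk : Differentiable ℂ k := hs.comp (by fun_prop)
  have h1 : Tendsto (fun t : ℂ => v0 + t • (v - v0)) (𝓝 0) (𝓝 v0) := by
    have h2 : Continuous fun t : ℂ => v0 + t • (v - v0) := by fun_prop
    have h3 := h2.tendsto 0
    simpa using h3
  have h2 : ∀ᶠ t in 𝓝 (0 : ℂ), k t = 0 := h1.eventually h0
  have hka : AnalyticOnNhd ℂ k Set.univ := fun t _ => hk.analyticAt t
  have h3 := hka.eqOn_zero_of_preconnected_of_eventuallyEq_zero isPreconnected_univ
    (Set.mem_univ 0) h2 (Set.mem_univ 1)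
  have h4 : k 1 = s v := by simp [k]
  rw [← h4]
  exact h3

/-- A point at which a given section of the base does not vanish. -/
theorem exists_point {ι : Type*} [Fintype ι]
    {E I K : Type*} [NormedAddCommGroup E] [NormedSpace ℂ E] [FiniteDimensional ℂ E]
    {M : Atlas E I K} {V : Type*} [NormedAddCommGroup V] [NormedSpace ℂ V]
    [FiniteDimensional ℂ V] {Γ : Subgroup (V ≃ᵃ[ℂ] V)} {n : ℕ} {u : ι → Fin n → ℤ}
    {S : Set (Set ι)} {c : ι → LineBundle Γ} {f : LiftedMap M u S c} {F : V → MvPolynomial ι ℂ}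
    (hf : IsCover f F) (hne : ∃ i, (M.U i).Nonempty) {s : V → ℂ} (hs : Differentiable ℂ s)
    (hs0 : ∃ v, s v ≠ 0) : ∃ i, ∃ z ∈ M.U i, s (f.v i z) ≠ 0 ∧ ∀ l, f.x i z l ≠ 0 := by
  obtain ⟨i, hi⟩ := hne
  obtain ⟨z0, hz0, hoff⟩ := hf.dense i (M.U i) (le_refl _) (M.isOpen_U i) hi
  have h1 := v_open (u := u) (hf.ana_v i z0 hz0) (hf.ana_x i z0 hz0) hoff.2 hf.dim
    (hf.imm i z0 hz0 hoff)
  have hxc : ContinuousAt (f.x i) z0 := (hf.ana_x i z0 hz0).continuousAt
  have h2 : ∀ᶠ z in 𝓝 z0, z ∈ M.U i ∧ ∀ l, f.x i z l ≠ 0 := by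
    refine (show ∀ᶠ z in 𝓝 z0, z ∈ M.U i from (M.isOpen_U i).mem_nhds hz0).and ?_
    rw [eventually_all]
    intro l
    exact ((continuousAt_pi.1 hxc) l).eventually_ne (hoff.2 l)
  by_contra hcon
  push Not at hcon
  have h3 : ∀ᶠ z in 𝓝 z0, s (f.v i z) = 0 := by
    filter_upwards [h2] with z hz
    by_contra h4
    obtain ⟨l, hl⟩ := hcon i z hz.1 h4
    exact hz.2 l hl
  have h4 : ∀ᶠ v in 𝓝 (f.v i z0), s v = 0 := by
    rw [← h1]
    exact h3
  obtain ⟨v, hv⟩ := hs0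
  exact hv (entire_zero hs h4 v)

variable {ι : Type} [Fintype ι] {n : ℕ} {u : ι → Fin n → ℤ} {S : Set (Set ι)}

/-- **Effective non-vanishing.** -/
theorem main (hS : IsSmoothFan u S) (g m : ℕ) (hm : 1 ≤ m) (d : ι → ℤ) :
    ∃ N : ℕ, 1 ≤ N ∧ ∀ (P : Pr u S m d g), (∀ v, ¬ OnMirror P.Γ v) →
      ∀ (E I K : Type) [NormedAddCommGroup E] [NormedSpace ℂ E] [FiniteDimensional ℂ E]
        (M : Atlas E I K), IsCpt M → (∃ i, (M.U i).Nonempty) →
        ∀ (f : LiftedMap M u S P.c) (F' : P.V → MvPolynomial ι ℂ), IsCover f F' →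
        ∀ (A : LB M) (a b : ℕ), 1 ≤ a → 1 ≤ b →
          (IsPullback f (A ^ a) (fun l => b * (d l - m)) fun γ v => P.L.e γ v ^ b) →
          [IsPsef A, HasSec (A ^ (a * N)), ∃ k : ℕ, 1 ≤ k ∧ HasSec (A ^ k),
            ∃ k : ℕ, 1 ≤ k ∧ ∃ β : ι → ℕ, LinEquiv u (fun l => (β l : ℤ))
              (fun l => k * (d l - m))].TFAE := by
  classical
  by_cases hE : ∃ k : ℕ, 1 ≤ k ∧ ∃ β : ι → ℕ, LinEquiv u (fun l => (β l : ℤ))
      (fun l => k * (d l - m))
  · obtain ⟨K₀, hK₀, β₀, hβ₀⟩ := id hE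
    have hN : ∀ T : Finset (ι →₀ ℕ), ∃ N : ℕ, 1 ≤ N ∧ ∀ P : Pr u S m d g,
        (P.F P.v₀ ^ K₀).support = T → ∃ b : (ι →₀ ℕ) → ℕ,
          (∀ i, ∑ α ∈ (P.F P.v₀ ^ K₀).support, b α * α i =
            (∑ α ∈ (P.F P.v₀ ^ K₀).support, b α) * (m * K₀ + β₀ i)) ∧
          N = K₀ * ((∑ α ∈ (P.F P.v₀ ^ K₀).support, b α) * mink g) := by
      intro T
      by_cases h : ∃ b : (ι →₀ ℕ) → ℕ, 1 ≤ ∑ α ∈ T, b α ∧
          ∀ i, ∑ α ∈ T, b α * α i = (∑ α ∈ T, b α) * (m * K₀ + β₀ i)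
      · obtain ⟨b, hb1, hb⟩ := h
        refine ⟨K₀ * ((∑ α ∈ T, b α) * mink g), Nat.mul_pos hK₀ (Nat.mul_pos hb1 (mink_pos g)),
          fun P hP => ⟨b, ?_, ?_⟩⟩
        · rw [hP]
          exact hb
        · rw [hP]
      · refine ⟨1, le_refl 1, fun P hT => absurd ?_ h⟩
        have hmK : 1 ≤ m * K₀ := Nat.mul_pos hm hK₀
        have h1 : (fun i => (K₀ : ℤ) * d i - ((m * K₀ : ℕ) : ℤ)) = fun i => K₀ * (d i - m) := by
          funext i
          push_cast
          ring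
        refine exists_comb hS T (d := fun i => K₀ * d i) (fun α hα => ?_) (m := m * K₀)
          (β := β₀) ?_ fun a ha => ?_
        · rw [← hT] at hα
          exact HasClass.pow (P.hF.deg P.v₀) K₀ α hα
        · rw [h1]
          exact hβ₀
        · rw [← hT]
          exact weights hS hmK (lc_pow P.hlc hK₀) a ha
    choose N hN1 hN using hN
    set Cl := (finite_class hS fun i => K₀ * d i).toFinset.powerset with hCl
    refine ⟨∏ T ∈ Cl, N T, Nat.pos_of_ne_zero (Finset.prod_ne_zero_iff.2 fun T _ =>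
      (Nat.pos_iff_ne_zero.1 (hN1 T))), fun P hmir E I K _ _ _ M hM hne f F' hf A a b ha hb hA => ?_⟩
    have hNpos : 1 ≤ ∏ T ∈ Cl, N T := Nat.pos_of_ne_zero (Finset.prod_ne_zero_iff.2 fun T _ =>
      (Nat.pos_iff_ne_zero.1 (hN1 T)))
    have hsec : HasSec (A ^ (a * ∏ T ∈ Cl, N T)) := by
      obtain ⟨bb, hb1, hb2⟩ := hN (P.F P.v₀ ^ K₀).support P rfl
      obtain ⟨G, hG, s, hs, hs0, hGs⟩ := sec_of_comb g hβ₀ P hmir hb1
      rw [← hb2] at hG
      obtain ⟨r, hr⟩ : N (P.F P.v₀ ^ K₀).support ∣ ∏ T ∈ Cl, N T := by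
        refine Finset.dvd_prod_of_mem N ?_
        rw [hCl, Finset.mem_powerset]
        intro α hα
        rw [Set.Finite.mem_toFinset]
        exact HasClass.pow (P.hF.deg P.v₀) K₀ α hα
      obtain ⟨h, hh, hh0, he⟩ := hA
      have h1 := sec_pullback hS f (d := fun i => d i - m) (L := P.L) hh he (G := G) hG
      obtain ⟨i, z, hz, hsz, hxz⟩ := exists_point hf hne hs hs0
      have h2 : HasSec ((A ^ a) ^ N (P.F P.v₀ ^ K₀).support) :=
        ⟨_, h1, i, z, hz, mul_ne_zero (pow_ne_zero _ (hh0 i z hz))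
          (pow_ne_zero _ (hGs _ _ hxz hsz))⟩
      have h3 := sec_mul h2 (N := r)
      rwa [← pow_mul, ← pow_mul, ← hr] at h3
    have haN : 1 ≤ a * ∏ T ∈ Cl, N T := Nat.mul_pos ha hNpos
    tfae_have 1 → 4 := fun _ => hE
    tfae_have 4 → 2 := fun _ => hsec
    tfae_have 2 → 3 := fun h => ⟨_, haN, h⟩
    tfae_have 3 → 1 := fun ⟨k, hk, h⟩ => psef_of_sec hk h
    tfae_finish
  · refine ⟨1, le_refl 1, fun P hmir E I K _ _ _ M hM hne f F' hf A a b ha hb hA => ?_⟩
    have h1 : IsPsef A → ∃ k : ℕ, 1 ≤ k ∧ ∃ β : ι → ℕ, LinEquiv u (fun l => (β l : ℤ))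
      (fun l => k * (d l - m)) := fun h =>
        fibre_eff (D := fun l => d l - m) hS P.hΓ hM hf ha hb hA h
    tfae_have 1 → 4 := h1
    tfae_have 4 → 2 := fun h => absurd h hE
    tfae_have 2 → 3 := fun h => ⟨_, by omega, h⟩
    tfae_have 3 → 1 := fun ⟨k, hk, h⟩ => psef_of_sec hk h
    tfae_finish

end Run7.h323.PS
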