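import Pool.Agent.Run7.h323.PS.Bnd
import Pool.Agent.Run7.h323.PS.Inv
import Pool.Agent.Run7.h323.PS.Lift
import Pool.Agent.Run7.h323.PS.Fin

/-!
# The weight function on the points over a curve
-/

set_option autoImplicit false
set_option linter.unusedSectionVars false

namespace Run7.h323.PS

open Pool.Agent.W594.SYZ2 MvPolynomial Q47.TB Q47.FJ Run7.h323.TQ Filter Topology

/-- Products of upper semicontinuous nonnegative functions. -/
theorem usc_mul {X : Type*} [TopologicalSpace X] {f g : X → ℝ} {K : Set X}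
    (hf : UpperSemicontinuousOn f K) (hg : UpperSemicontinuousOn g K) (hf0 : ∀ x ∈ K, 0 ≤ f x)
    (hg0 : ∀ x ∈ K, 0 ≤ g x) : UpperSemicontinuousOn (fun x => f x * g x) K := by
  intro x hx y hy
  have h1 : Tendsto (fun ε : ℝ => (f x + ε) * (g x + ε)) (𝓝[>] 0) (𝓝 (f x * g x)) := by
    have h2 : Continuous fun ε : ℝ => (f x + ε) * (g x + ε) := by fun_prop
    have h3 := (h2.tendsto 0).mono_left (nhdsWithin_le_nhds (s := Set.Ioi (0 : ℝ)))
    simpa using h3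
  obtain ⟨ε, hε1, hε2⟩ := ((h1.eventually (gt_mem_nhds hy)).and self_mem_nhdsWithin).exists
  have hε : 0 < ε := hε2
  have h4 := hf x hx (f x + ε) (by linarith)
  have h5 := hg x hx (g x + ε) (by linarith)
  filter_upwards [h4, h5, self_mem_nhdsWithin] with z h6 h7 hz
  exact lt_of_le_of_lt (mul_le_mul h6.le h7.le (hg0 z hz) (by linarith [hf0 x hx])) hε1

theorem usc_pow {X : Type*} [TopologicalSpace X] {f : X → ℝ} {K : Set X}
    (hf : UpperSemicontinuousOn f K) (hf0 : ∀ x ∈ K, 0 ≤ f x) (k : ℕ) :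
    UpperSemicontinuousOn (fun x => f x ^ k) K := by
  induction k with
  | zero =>
    simp only [pow_zero]
    exact continuousOn_const.upperSemicontinuousOn
  | succ k ih =>
    simp only [pow_succ]
    exact usc_mul ih hf (fun x hx => pow_nonneg (hf0 x hx) k) hf0

variable {ι : Type*} [Fintype ι]

/-- The curve, as polynomials. -/
noncomputable def pl (x0 : ι → ℂ) (τ : ι → ℕ) (l : ι) : Polynomial ℂ :=
  Polynomial.C (x0 l) * (1 - Polynomial.C (1 / rt l) * Polynomial.X) ^ τ l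

theorem pl_eval (x0 : ι → ℂ) (τ : ι → ℕ) (l : ι) (s : ℂ) :
    (pl x0 τ l).eval s = crv x0 τ s l := by
  simp only [pl, crv, Polynomial.eval_mul, Polynomial.eval_C, Polynomial.eval_pow,
    Polynomial.eval_sub, Polynomial.eval_one, Polynomial.eval_X]
  ring

/-- The equations of the divisors on the curve. -/
noncomputable def rq (x0 : ι → ℂ) (τ : ι → ℕ) (F : MvPolynomial ι ℂ) : Polynomial ℂ :=
  MvPolynomial.eval₂ Polynomial.C (pl x0 τ) F * ∏ l, pl x0 τ l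

theorem rq_eval (x0 : ι → ℂ) (τ : ι → ℕ) (F : MvPolynomial ι ℂ) (s : ℂ) :
    (rq x0 τ F).eval s = eval (crv x0 τ s) F * ∏ l, crv x0 τ s l := by
  rw [rq, Polynomial.eval_mul, Polynomial.eval_prod]
  congr 1
  · have h1 := MvPolynomial.eval₂_comp_left (Polynomial.evalRingHom s) Polynomial.C (pl x0 τ) F
    have h2 : (Polynomial.evalRingHom s).comp Polynomial.C = RingHom.id ℂ := by
      ext
      simp
    rw [h2] at h1
    have h3 : (⇑(Polynomial.evalRingHom s) ∘ pl x0 τ) = crv x0 τ s := by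
      funext l
      exact pl_eval x0 τ l s
    rw [h3] at h1
    exact h1
  · exact Finset.prod_congr rfl fun l _ => pl_eval x0 τ l s

theorem poly_growth (p : Polynomial ℂ) : ∃ C : ℝ, 0 ≤ C ∧ ∀ s, ‖p.eval s‖ ≤
    C * mu s ^ p.natDegree := by
  refine ⟨∑ i ∈ Finset.range (p.natDegree + 1), ‖p.coeff i‖,
    Finset.sum_nonneg fun i _ => norm_nonneg _, fun s => ?_⟩
  rw [Polynomial.eval_eq_sum_range, Finset.sum_mul]
  refine (norm_sum_le _ _).trans (Finset.sum_le_sum fun i hi => ?_)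
  rw [norm_mul, norm_pow]
  refine mul_le_mul_of_nonneg_left ?_ (norm_nonneg _)
  calc ‖s‖ ^ i ≤ mu s ^ i := pow_le_pow_left₀ (norm_nonneg _) (le_max_right _ _) i
    _ ≤ mu s ^ p.natDegree := pow_le_pow_right₀ (one_le_mu s)
        (by have := Finset.mem_range.1 hi; omega)

variable {E I K : Type*} [NormedAddCommGroup E] [NormedSpace ℂ E] [FiniteDimensional ℂ E]
  {M : Atlas E I K} {V : Type*} [NormedAddCommGroup V] [NormedSpace ℂ V] [FiniteDimensional ℂ V]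
  {Γ : Subgroup (V ≃ᵃ[ℂ] V)} {n : ℕ} {u : ι → Fin n → ℤ} {S : Set (Set ι)} {c : ι → LineBundle Γ}

/-- The situation. -/
structure Sit (f : LiftedMap M u S c) (F : V → MvPolynomial ι ℂ) (A : LB M) (L : LineBundle Γ)
    (D : ι → ℤ) (a b : ℕ) (w : I → E → ℝ) (h : I → E → ℂ) (T : Finset I) (C : I → Set E) :
    Prop where
  fan : IsSmoothFan u S
  tq : IsTorusQuotient Γ
  cov : IsCover f F
  psh : ∀ i, IsLogPsh (M.U i) (w i)
  wt : ∀ k, ∀ z ∈ M.D k, w (M.t k) (M.φ k z) = ‖ev A k z‖ * w (M.s k) z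
  hh : ∀ i, DifferentiableOn ℂ (h i) (M.U i)
  hh0 : ∀ i, ∀ z ∈ M.U i, h i z ≠ 0
  he : ∀ k, ∀ z ∈ M.D k, ev (A ^ a) k z * h (M.s k) z =
    h (M.t k) (M.φ k z) * (L.e (f.γ k z) (f.v (M.s k) z) ^ b *
      ∏ l, (f.t k z l : ℂ) ^ ((b : ℤ) * D l))
  cpt : ∀ i ∈ T, IsCompact (C i) ∧ C i ⊆ M.U i
  cover : ∀ i', ∀ z' ∈ M.U i', ∃ i ∈ T, ∃ z ∈ C i, M.Same i' z' i z
  ha : 1 ≤ a
  hb : 1 ≤ b

variable (f : LiftedMap M u S c) (F : V → MvPolynomial ι ℂ) (L : LineBundle Γ)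
    (D : ι → ℤ) (a b N : ℕ) (w : I → E → ℝ) (h : I → E → ℂ) (v0 : V) (x0 : ι → ℂ) (τ : ι → ℕ)

/-- The weight function. -/
noncomputable def Ps (i : I) (γ : Γ) (p : ℂ × E) : ℝ :=
  inv f L D a b w h i γ p.2 ^ N * (∏ l, ‖crv x0 τ p.1 l‖ ^ ((b : ℤ) * N * D l)) *
    ‖(rq x0 τ (F v0)).eval p.1‖

/-- The points over the curve. -/
def Gd (C : I → Set E) (i : I) (γ : Γ) (p : ℂ × E) : Prop :=
  p.2 ∈ C i ∧ Tup f v0 (crv x0 τ p.1) i γ p.2 ∧ (rq x0 τ (F v0)).eval p.1 ≠ 0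

variable {f F L D a b N w h v0 x0 τ}

theorem crv_ne {F' : MvPolynomial ι ℂ} {s : ℂ} (hs : (rq x0 τ F').eval s ≠ 0) (l : ι) :
    crv x0 τ s l ≠ 0 := by
  rw [rq_eval] at hs
  exact Finset.prod_ne_zero_iff.1 (right_ne_zero_of_mul hs) l (Finset.mem_univ l)

theorem Ps_eq {i : I} {γ : Γ} {p : ℂ × E} :
    Ps f F L D a b N w h v0 x0 τ i γ p = w i p.2 ^ (a * N) *
      ((‖h i p.2‖⁻¹ * ‖L.e γ (f.v i p.2)‖ ^ b) ^ N *
        (∏ l, (‖crv x0 τ p.1 l‖ / ‖yc f i γ p.2 l‖) ^ ((b : ℤ) * N * D l)) *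
          ‖(rq x0 τ (F v0)).eval p.1‖) := by
  have h1 : (∏ l, ‖yc f i γ p.2 l‖ ^ (-((b : ℤ) * D l))) ^ N =
      (∏ l, ‖yc f i γ p.2 l‖ ^ ((b : ℤ) * N * D l))⁻¹ := by
    rw [← Finset.prod_pow, ← Finset.prod_inv_distrib]
    refine Finset.prod_congr rfl fun l _ => ?_
    rw [← zpow_natCast, ← zpow_mul, ← zpow_neg]
    congr 1
    ring
  have h2 : ∏ l, (‖crv x0 τ p.1 l‖ / ‖yc f i γ p.2 l‖) ^ ((b : ℤ) * N * D l) =
      (∏ l, ‖crv x0 τ p.1 l‖ ^ ((b : ℤ) * N * D l)) *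
        (∏ l, ‖yc f i γ p.2 l‖ ^ ((b : ℤ) * N * D l))⁻¹ := by
    rw [← Finset.prod_inv_distrib, ← Finset.prod_mul_distrib]
    refine Finset.prod_congr rfl fun l _ => ?_
    rw [div_zpow, div_eq_mul_inv]
  rw [Ps, inv, h2, mul_pow, mul_pow, h1, div_eq_mul_inv, mul_pow, mul_pow, ← pow_mul]
  ring

theorem Ps_nonneg {A : LB M} {T : Finset I} {C : I → Set E}
    (hs : Sit f F A L D a b w h T C) {i : I} {γ : Γ} {p : ℂ × E} (hp : p.2 ∈ M.U i) :
    0 ≤ Ps f F L D a b N w h v0 x0 τ i γ p := by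
  rw [Ps_eq]
  refine mul_nonneg (pow_nonneg ((hs.psh i).nonneg _ hp) _) (mul_nonneg (mul_nonneg
    (pow_nonneg (by positivity) _) (Finset.prod_nonneg fun l _ => zpow_nonneg (by positivity) _))
    (norm_nonneg _))

theorem yc_cont {i : I} {γ : Γ} {Z : Set E} (hZ : Z ⊆ M.U i) (l : ι) :
    ContinuousOn (fun z => yc f i γ z l) Z := by
  have h1 : ContinuousOn (f.v i) Z := ((f.holo_v i).continuousOn).mono hZ
  have h2 : ContinuousOn (fun z => f.x i z l) Z :=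
    (continuousOn_pi.1 ((f.holo_x i).continuousOn.mono hZ)) l
  exact (((c l).holo γ).continuous.comp_continuousOn h1).mul h2

theorem fib_compact {A : LB M} {T : Finset I} {C : I → Set E}
    (hs : Sit f F A L D a b w h T C) {i : I} (hi : i ∈ T) (γ : Γ) (v0 : V) :
    IsCompact {z | z ∈ C i ∧ (γ : V ≃ᵃ[ℂ] V) (f.v i z) = v0} := by
  obtain ⟨h1, h2⟩ := hs.cpt i hi
  have h3 : ContinuousOn (fun z => (γ : V ≃ᵃ[ℂ] V) (f.v i z)) (C i) := by
    have h4 : Continuous fun v => (γ : V ≃ᵃ[ℂ] V) v :=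
      ((γ : V ≃ᵃ[ℂ] V) : V →ᵃ[ℂ] V).continuous_of_finiteDimensional
    exact h4.comp_continuousOn (((f.holo_v i).continuousOn).mono h2)
  exact h1.of_isClosed_subset (h3.preimage_isClosed_of_isClosed h1.isClosed isClosed_singleton)
    Set.inter_subset_left

/-- The bound on the points over the curve. -/
theorem bound1 [Nonempty ι] {A : LB M} {T : Finset I} {C : I → Set E}
    (hs : Sit f F A L D a b w h T C) (hx0 : ∀ l, x0 l ≠ 0)
    (hτ : ∀ k, ∑ l, (τ l : ℤ) * u l k = 0) (hD : ∑ l, (τ l : ℤ) * D l < 0) {i : I} (hi : i ∈ T)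
    (γ : Γ) (N : ℕ) :
    ∃ C1 C2 : ℝ, 0 ≤ C1 ∧ ∀ p : ℂ × E, Gd f F v0 x0 τ C i γ p →
      Ps f F L D a b N w h v0 x0 τ i γ p ≤
        C1 * (mu p.1 ^ N)⁻¹ * ‖(rq x0 τ (F v0)).eval p.1‖ ∧
      ∀ l, ‖crv x0 τ p.1 l‖ * Real.exp (-(τ l * Real.log (mu p.1)) - C2) ≤
        ‖yc f i γ p.2 l‖ := by
  set Z := {z | z ∈ C i ∧ (γ : V ≃ᵃ[ℂ] V) (f.v i z) = v0} with hZ
  have hZc : IsCompact Z := fib_compact hs hi γ v0
  have hZU : Z ⊆ M.U i := fun z hz => (hs.cpt i hi).2 hz.1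
  obtain ⟨A0, hA0⟩ := good_bound hZc (S := S) (y := fun z => yc f i γ z)
    (fun l => yc_cont hZU l) (fun z hz => by
      have h1 : {l | yc f i γ z l = 0} = {l | f.x i z l = 0} := by
        ext l
        simp only [yc, Set.mem_ofPred_eq, mul_eq_zero, (c l).ne_zero, false_or]
      rw [h1]
      exact f.mem i z (hZU hz))
  obtain ⟨C2, hC2, hr⟩ := ratio_bound hs.fan hx0 hτ A0
  -- the bound on the metric
  obtain ⟨W0, hW0, hW⟩ : ∃ W0 : ℝ, 0 ≤ W0 ∧ ∀ z ∈ Z,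
      w i z ^ (a * N) * (‖h i z‖⁻¹ * ‖L.e γ (f.v i z)‖ ^ b) ^ N ≤ W0 := by
    rcases Z.eq_empty_or_nonempty with h0 | h0
    · exact ⟨0, le_refl 0, fun z hz => by rw [h0] at hz; exact hz.elim⟩
    have hpos : ∀ z ∈ Z, 0 ≤ w i z ^ (a * N) * (‖h i z‖⁻¹ * ‖L.e γ (f.v i z)‖ ^ b) ^ N :=
      fun z hz => mul_nonneg (pow_nonneg ((hs.psh i).nonneg _ (hZU hz)) _)
        (pow_nonneg (by positivity) _)
    have h1 : UpperSemicontinuousOn
        (fun z => w i z ^ (a * N) * (‖h i z‖⁻¹ * ‖L.e γ (f.v i z)‖ ^ b) ^ N) Z := by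
      refine usc_mul (usc_pow ((hs.psh i).usc.mono hZU)
        (fun z hz => (hs.psh i).nonneg _ (hZU hz)) _) ?_
        (fun z hz => pow_nonneg ((hs.psh i).nonneg _ (hZU hz)) _)
        (fun z _ => pow_nonneg (by positivity) _)
      refine ContinuousOn.upperSemicontinuousOn (ContinuousOn.pow (ContinuousOn.mul ?_ ?_) N)
      · exact (((hs.hh i).continuousOn.mono hZU).norm).inv₀ fun z hz =>
          norm_ne_zero_iff.2 (hs.hh0 i z (hZU hz))
      · exact (((L.holo γ).continuous.comp_continuousOn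
          ((f.holo_v i).continuousOn.mono hZU)).norm).pow b
    obtain ⟨z1, hz1, hmax⟩ := h1.exists_isMaxOn h0 hZc
    exact ⟨_, hpos z1 hz1, fun z hz => hmax hz⟩
  set E0 : ℝ := ∑ l, (b : ℝ) * N * |(D l : ℝ)| * C2 with hE0
  refine ⟨W0 * Real.exp E0, C2, mul_nonneg hW0 (Real.exp_pos _).le, fun p hp => ?_⟩
  obtain ⟨hpC, hpT, hpR⟩ := hp
  have hpZ : p.2 ∈ Z := ⟨hpC, hpT.eqv⟩
  have hcr := fun l => crv_ne hpR l
  have h1 := hr p.1 (yc f i γ p.2) hcr hpT.ne (hA0 _ hpZ hpT.ne) hpT.eqx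
  have hrp : ∀ l, 0 < ‖crv x0 τ p.1 l‖ / ‖yc f i γ p.2 l‖ := fun l =>
    div_pos (norm_pos_iff.2 (hcr l)) (norm_pos_iff.2 (hpT.ne l))
  refine ⟨?_, fun l => ?_⟩
  · rw [Ps_eq, ← mul_assoc, ← mul_assoc]
    refine mul_le_mul_of_nonneg_right ?_ (norm_nonneg _)
    have h2 : ∏ l, (‖crv x0 τ p.1 l‖ / ‖yc f i γ p.2 l‖) ^ ((b : ℤ) * N * D l) ≤
        Real.exp E0 * (mu p.1 ^ N)⁻¹ := by
      have h3 : ∏ l, (‖crv x0 τ p.1 l‖ / ‖yc f i γ p.2 l‖) ^ ((b : ℤ) * N * D l) =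
          Real.exp (∑ l, ((b : ℝ) * N * D l) *
            Real.log (‖crv x0 τ p.1 l‖ / ‖yc f i γ p.2 l‖)) := by
        rw [Real.exp_sum]
        refine Finset.prod_congr rfl fun l _ => ?_
        have h4 : ((b : ℝ) * N * D l) = (((b : ℤ) * N * D l : ℤ) : ℝ) := by push_cast; ring
        rw [h4, ← Real.log_zpow, Real.exp_log (zpow_pos (hrp l) _)]
      have h4 : (mu p.1 ^ N)⁻¹ = Real.exp (-(N * Real.log (mu p.1))) := by
        rw [Real.exp_neg, ← Real.log_pow, Real.exp_log (pow_pos (mu_pos _) _)]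
      rw [h3, h4, ← Real.exp_add]
      refine Real.exp_le_exp.2 ?_
      have h5 : ∑ l, ((b : ℝ) * N * D l) * Real.log (‖crv x0 τ p.1 l‖ / ‖yc f i γ p.2 l‖) =
          ∑ l, ((b : ℝ) * N * D l) * (Real.log (‖crv x0 τ p.1 l‖ / ‖yc f i γ p.2 l‖) -
            τ l * Real.log (mu p.1)) +
          (b : ℝ) * N * Real.log (mu p.1) * ∑ l, (τ l : ℝ) * D l := by
        rw [Finset.mul_sum, ← Finset.sum_add_distrib]
        exact Finset.sum_congr rfl fun l _ => by ring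
      have h6 : ∑ l, ((b : ℝ) * N * D l) * (Real.log (‖crv x0 τ p.1 l‖ / ‖yc f i γ p.2 l‖) -
            τ l * Real.log (mu p.1)) ≤ E0 := by
        refine Finset.sum_le_sum fun l _ => ?_
        refine (le_abs_self _).trans ?_
        rw [abs_mul, abs_mul, abs_mul, Nat.abs_cast, Nat.abs_cast]
        exact mul_le_mul_of_nonneg_left (h1 l) (by positivity)
      have h7 : ∑ l, (τ l : ℝ) * D l ≤ -1 := by
        have h8 : ∑ l, (τ l : ℤ) * D l ≤ -1 := by omega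
        exact_mod_cast h8
      have h8 : 0 ≤ Real.log (mu p.1) := Real.log_nonneg (one_le_mu _)
      have h9 : (1 : ℝ) ≤ b := by exact_mod_cast hs.hb
      have h10 : (b : ℝ) * N * Real.log (mu p.1) * ∑ l, (τ l : ℝ) * D l ≤
          -(N * Real.log (mu p.1)) := by
        have h11 : 0 ≤ (N : ℝ) * Real.log (mu p.1) := mul_nonneg (Nat.cast_nonneg _) h8
        have h12 : (N : ℝ) * Real.log (mu p.1) ≤ b * (N * Real.log (mu p.1)) :=
          le_mul_of_one_le_left h11 h9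
        calc (b : ℝ) * N * Real.log (mu p.1) * ∑ l, (τ l : ℝ) * D l
            = (b * (N * Real.log (mu p.1))) * ∑ l, (τ l : ℝ) * D l := by ring
          _ ≤ (b * (N * Real.log (mu p.1))) * (-1) :=
              mul_le_mul_of_nonneg_left h7 (by positivity)
          _ ≤ -(N * Real.log (mu p.1)) := by linarith
      rw [h5]
      linarith
    have h3 := hW p.2 hpZ
    have h4 : 0 ≤ ∏ l, (‖crv x0 τ p.1 l‖ / ‖yc f i γ p.2 l‖) ^ ((b : ℤ) * N * D l) :=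
      Finset.prod_nonneg fun l _ => zpow_nonneg (hrp l).le _
    calc _ ≤ W0 * (Real.exp E0 * (mu p.1 ^ N)⁻¹) := mul_le_mul h3 h2 h4 hW0
      _ = _ := by ring
  · have h2 := (abs_le.1 (h1 l)).2
    have h3 : Real.log (‖crv x0 τ p.1 l‖ / ‖yc f i γ p.2 l‖) ≤
        τ l * Real.log (mu p.1) + C2 := by linarith
    have h4 := (Real.log_le_iff_le_exp (hrp l)).1 h3
    rw [div_le_iff₀ (norm_pos_iff.2 (hpT.ne l))] at h4
    calc ‖crv x0 τ p.1 l‖ * Real.exp (-(τ l * Real.log (mu p.1)) - C2)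
        ≤ (Real.exp (τ l * Real.log (mu p.1) + C2) * ‖yc f i γ p.2 l‖) *
          Real.exp (-(τ l * Real.log (mu p.1)) - C2) :=
          mul_le_mul_of_nonneg_right h4 (Real.exp_pos _).le
      _ = ‖yc f i γ p.2 l‖ * Real.exp ((τ l * Real.log (mu p.1) + C2) +
          (-(τ l * Real.log (mu p.1)) - C2)) := by
          rw [Real.exp_add (τ l * Real.log (mu p.1) + C2) (-(τ l * Real.log (mu p.1)) - C2)]
          ring
      _ = ‖yc f i γ p.2 l‖ := by
          have : (τ l * Real.log (mu p.1) + C2) + (-(τ l * Real.log (mu p.1)) - C2) = 0 := by ring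
          rw [this, Real.exp_zero, mul_one]

end Run7.h323.PS
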