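import Pool.Agent.Run7.h323.PS.Max

/-!
# Pseudoeffective line bundles on covers of toric bundles are effective on the fibres
-/

set_option autoImplicit false
set_option linter.unusedSectionVars false

namespace Run7.h323.PS

open Pool.Agent.W594.SYZ2 MvPolynomial Q47.TB Q47.FJ Run7.h323.TQ Filter Topology

variable {ι : Type*} [Fintype ι]
  {E I K : Type*} [NormedAddCommGroup E] [NormedSpace ℂ E] [FiniteDimensional ℂ E]
  {M : Atlas E I K} {V : Type*} [NormedAddCommGroup V] [NormedSpace ℂ V] [FiniteDimensional ℂ V]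
  {Γ : Subgroup (V ≃ᵃ[ℂ] V)} {n : ℕ} {u : ι → Fin n → ℤ} {S : Set (Set ι)} {c : ι → LineBundle Γ}
  {f : LiftedMap M u S c} {F : V → MvPolynomial ι ℂ} {L : LineBundle Γ}
    {D : ι → ℤ} {a b N : ℕ} {w : I → E → ℝ} {h : I → E → ℂ} {v0 : V} {x0 : ι → ℂ} {τ : ι → ℕ}
    {A : LB M} {T : Finset I} {C : I → Set E}

theorem crv_cont (l : ι) : Continuous fun s => crv x0 τ s l := by
  have h1 : (fun s => crv x0 τ s l) = fun s => (pl x0 τ l).eval s := by
    funext s
    exact (pl_eval x0 τ l s).symm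
  rw [h1]
  exact (pl x0 τ l).continuous

theorem mu_cont : Continuous mu := continuous_const.max continuous_norm

/-- Closed conditions on a compact set. -/
theorem compact_cond {X Y : Type*} [TopologicalSpace X] [T2Space X] [TopologicalSpace Y]
    {Kc : Set X} (hK : IsCompact Kc) {φ : X → Y} (hφ : ContinuousOn φ Kc) {B : Set Y}
    (hB : IsClosed B) : IsCompact (Kc ∩ φ ⁻¹' B) :=
  hK.of_isClosed_subset (hφ.preimage_isClosed_of_isClosed hK.isClosed hB) Set.inter_subset_left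

/-- The relevant points over a curve form a compact set. -/
theorem comp_set [Nonempty ι] (hs : Sit f F A L D a b w h T C) (hx0 : ∀ l, x0 l ≠ 0)
    (hτ : ∀ k, ∑ l, (τ l : ℤ) * u l k = 0) (hD : ∑ l, (τ l : ℤ) * D l < 0) {i : I} (hi : i ∈ T)
    (γ : Γ) (N : ℕ) (R δ η : ℝ) (hδ : 0 < δ) :
    ∃ Kc : Set (ℂ × E), IsCompact Kc ∧ (∀ p ∈ Kc, Gd f F v0 x0 τ C i γ p ∧ ‖p.1‖ ≤ R) ∧
      UpperSemicontinuousOn (fun p => Ps f F L D a b N w h v0 x0 τ i γ p *
        Real.exp (η * ‖p.1‖ ^ 2)) Kc ∧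
      ∀ p, Gd f F v0 x0 τ C i γ p → ‖p.1‖ ≤ R → δ ≤ Ps f F L D a b N w h v0 x0 τ i γ p →
        p ∈ Kc := by
  obtain ⟨C1, C2, hC1, hbd⟩ := bound1 (v0 := v0) hs hx0 hτ hD hi γ N
  set δ' : ℝ := δ / (C1 + 1) with hδ'
  have hδ'0 : 0 < δ' := by positivity
  set Z := {z | z ∈ C i ∧ (γ : V ≃ᵃ[ℂ] V) (f.v i z) = v0} with hZ
  have hZc : IsCompact Z := fib_compact hs hi γ v0
  have hZU : Z ⊆ M.U i := fun z hz => (hs.cpt i hi).2 hz.1
  set Q : Set ℂ := Metric.closedBall 0 R ∩ (fun s => ‖(rq x0 τ (F v0)).eval s‖) ⁻¹' Set.Ici δ'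
    with hQ
  have hQc : IsCompact Q := compact_cond (isCompact_closedBall 0 R)
    ((rq x0 τ (F v0)).continuous.norm.continuousOn) isClosed_Ici
  have hQne : ∀ s ∈ Q, (rq x0 τ (F v0)).eval s ≠ 0 := by
    intro s hsQ h0
    have h1 : δ' ≤ ‖(rq x0 τ (F v0)).eval s‖ := hsQ.2
    rw [h0, norm_zero] at h1
    linarith
  -- the lower bound of the coordinates
  obtain ⟨ε, hε, hεb⟩ : ∃ ε > 0, ∀ s ∈ Q, ∀ l, ε ≤ ‖crv x0 τ s l‖ *
      Real.exp (-(τ l * Real.log (mu s)) - C2) := by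
    have h1 : ∀ l, ∃ ε > 0, ∀ s ∈ Q, ε ≤ ‖crv x0 τ s l‖ *
        Real.exp (-(τ l * Real.log (mu s)) - C2) := by
      intro l
      rcases Q.eq_empty_or_nonempty with h0 | h0
      · exact ⟨1, one_pos, fun s hsQ => by rw [h0] at hsQ; exact hsQ.elim⟩
      have h2 : Continuous fun s => ‖crv x0 τ s l‖ *
          Real.exp (-(τ l * Real.log (mu s)) - C2) := by
        refine (crv_cont l).norm.mul (Real.continuous_exp.comp ?_)
        exact ((continuous_const.mul (mu_cont.log fun s => (mu_pos s).ne')).neg).sub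
          continuous_const
      obtain ⟨s1, hs1, hmin⟩ := hQc.exists_isMinOn h0 h2.continuousOn
      exact ⟨_, mul_pos (norm_pos_iff.2 (crv_ne (hQne s1 hs1) l)) (Real.exp_pos _),
        fun s hsQ => hmin hsQ⟩
    choose ε hε0 hε using h1
    obtain ⟨l1, hl1⟩ := Finite.exists_min ε
    exact ⟨ε l1, hε0 l1, fun s hsQ l => (hl1 l).trans (hε l s hsQ)⟩
  set K0 : Set (ℂ × E) := Q ×ˢ Z with hK0
  have hK0c : IsCompact K0 := hQc.prod hZc
  have hyc : ∀ l, ContinuousOn (fun p : ℂ × E => yc f i γ p.2 l) K0 := fun l =>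
    (yc_cont hZU l).comp continuousOn_snd fun p hp => hp.2
  set K1 : Set (ℂ × E) := K0 ∩ (fun p : ℂ × E => fun l => ‖yc f i γ p.2 l‖) ⁻¹'
    (Set.Ici fun _ => ε) with hK1
  have hK1c : IsCompact K1 := compact_cond hK0c
    (continuousOn_pi.2 fun l => (hyc l).norm) isClosed_Ici
  have hyne : ∀ p ∈ K1, ∀ l, yc f i γ p.2 l ≠ 0 := by
    intro p hp l h0
    have h1 : ε ≤ ‖yc f i γ p.2 l‖ := hp.2 l
    rw [h0, norm_zero] at h1
    linarith
  have hcne : ∀ p ∈ K1, ∀ l, crv x0 τ p.1 l ≠ 0 := fun p hp l => crv_ne (hQne _ hp.1.1) l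
  set K2 : Set (ℂ × E) := K1 ∩ (fun p : ℂ × E => fun k => (∏ l, yc f i γ p.2 l ^ u l k) -
    ∏ l, crv x0 τ p.1 l ^ u l k) ⁻¹' {0} with hK2
  have hcc : ∀ l, ContinuousOn (fun p : ℂ × E => crv x0 τ p.1 l) K1 := fun l =>
    ((crv_cont l).comp continuous_fst).continuousOn
  have hK2c : IsCompact K2 := by
    refine compact_cond hK1c (continuousOn_pi.2 fun k => ContinuousOn.sub ?_ ?_) isClosed_singleton
    · exact continuousOn_finsetProd _ fun l _ => ((hyc l).mono Set.inter_subset_left).zpow₀ _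
        fun p hp => Or.inl (hyne p hp l)
    · exact continuousOn_finsetProd _ fun l _ => (hcc l).zpow₀ _
        fun p hp => Or.inl (hcne p hp l)
  refine ⟨K2, hK2c, fun p hp => ⟨⟨hp.1.1.2.1, ⟨hZU hp.1.1.2, hp.1.1.2.2, hyne p hp.1, fun k => ?_⟩,
    hQne _ hp.1.1.1⟩, ?_⟩, ?_, fun p hg hR hge => ?_⟩
  · have h1 := congrFun (show (fun k => (∏ l, yc f i γ p.2 l ^ u l k) -
      ∏ l, crv x0 τ p.1 l ^ u l k) = (0 : Fin n → ℂ) from hp.2) k
    exact sub_eq_zero.1 h1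
  · have h1 : p.1 ∈ Metric.closedBall (0 : ℂ) R := hp.1.1.1.1
    simpa using h1
  · simp only [Ps_eq]
    have hsub : K2 ⊆ K1 := Set.inter_subset_left
    have hmaps : Set.MapsTo (fun p : ℂ × E => p.2) K2 Z := fun p hp => hp.1.1.2
    have hw1 : UpperSemicontinuousOn (fun p : ℂ × E => w i p.2 ^ (a * N)) K2 := by
      have h1 := usc_pow ((hs.psh i).usc.mono hZU)
        (fun z hz => (hs.psh i).nonneg _ (hZU hz)) (a * N)
      intro p hp y hy
      have h2 := h1 p.2 (hmaps hp) y hy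
      exact (continuousOn_snd p hp).tendsto_nhdsWithin hmaps |>.eventually h2
    have hcont : ContinuousOn (fun p : ℂ × E =>
        ((‖h i p.2‖⁻¹ * ‖L.e γ (f.v i p.2)‖ ^ b) ^ N *
          (∏ l, (‖crv x0 τ p.1 l‖ / ‖yc f i γ p.2 l‖) ^ ((b : ℤ) * N * D l)) *
            ‖(rq x0 τ (F v0)).eval p.1‖)) K2 := by
      refine ContinuousOn.mul (ContinuousOn.mul (ContinuousOn.pow (ContinuousOn.mul ?_ ?_) N) ?_) ?_
      · refine ContinuousOn.inv₀ ?_ fun p hp => norm_ne_zero_iff.2 (hs.hh0 i _ (hZU (hmaps hp)))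
        exact (((hs.hh i).continuousOn.mono hZU).comp continuousOn_snd hmaps).norm
      · exact (((L.holo γ).continuous.comp_continuousOn
          (((f.holo_v i).continuousOn.mono hZU).comp continuousOn_snd hmaps)).norm).pow b
      · refine continuousOn_finsetProd _ fun l _ => ContinuousOn.zpow₀ (ContinuousOn.div
          ((hcc l).mono hsub).norm (((hyc l).mono Set.inter_subset_left).mono hsub).norm
          fun p hp => norm_ne_zero_iff.2 (hyne p (hsub hp) l)) _ fun p hp => Or.inl ?_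
        exact div_ne_zero (norm_ne_zero_iff.2 (hcne p (hsub hp) l))
          (norm_ne_zero_iff.2 (hyne p (hsub hp) l))
      · exact (((rq x0 τ (F v0)).continuous.comp continuous_fst).norm).continuousOn
    have hnn : ∀ p : ℂ × E, 0 ≤ ((‖h i p.2‖⁻¹ * ‖L.e γ (f.v i p.2)‖ ^ b) ^ N *
          (∏ l, (‖crv x0 τ p.1 l‖ / ‖yc f i γ p.2 l‖) ^ ((b : ℤ) * N * D l)) *
            ‖(rq x0 τ (F v0)).eval p.1‖) := fun p =>
      mul_nonneg (mul_nonneg (pow_nonneg (by positivity) _)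
        (Finset.prod_nonneg fun l _ => zpow_nonneg (by positivity) _)) (norm_nonneg _)
    have hwnn : ∀ p ∈ K2, 0 ≤ w i p.2 ^ (a * N) := fun p hp =>
      pow_nonneg ((hs.psh i).nonneg _ (hZU (hmaps hp))) _
    refine usc_mul (usc_mul hw1 hcont.upperSemicontinuousOn hwnn fun p _ => hnn p) ?_
      (fun p hp => mul_nonneg (hwnn p hp) (hnn p)) fun p _ => (Real.exp_pos _).le
    refine ContinuousOn.upperSemicontinuousOn (Continuous.continuousOn ?_)
    exact Real.continuous_exp.comp (continuous_const.mul (continuous_fst.norm.pow 2))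
  · obtain ⟨h1, h2⟩ := hbd p hg
    have hmu : (mu p.1 ^ N)⁻¹ ≤ 1 := inv_le_one_of_one_le₀ (one_le_pow₀ (one_le_mu _))
    have h3 : δ ≤ C1 * ‖(rq x0 τ (F v0)).eval p.1‖ := by
      refine hge.trans (h1.trans ?_)
      refine mul_le_mul_of_nonneg_right ?_ (norm_nonneg _)
      calc C1 * (mu p.1 ^ N)⁻¹ ≤ C1 * 1 := mul_le_mul_of_nonneg_left hmu hC1
        _ = C1 := mul_one _
    have h4 : δ' ≤ ‖(rq x0 τ (F v0)).eval p.1‖ := by
      rw [hδ', div_le_iff₀ (by linarith)]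
      nlinarith [norm_nonneg ((rq x0 τ (F v0)).eval p.1)]
    have hpQ : p.1 ∈ Q := ⟨by simpa using hR, h4⟩
    refine ⟨⟨⟨hpQ, hg.1, hg.2.1.eqv⟩, fun l => ?_⟩, ?_⟩
    · exact (hεb _ hpQ l).trans (h2 l)
    · change (fun k => (∏ l, yc f i γ p.2 l ^ u l k) - ∏ l, crv x0 τ p.1 l ^ u l k) = 0
      funext k
      simp only [Pi.zero_apply]
      rw [hg.2.1.eqx k, sub_self]

end Run7.h323.PS
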